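import Pool.Agent.H697.LF.Square

/-!
# Making all degrees squares: value and running time
-/

namespace Pool.Agent.H697.LF

open Finset Pool.Agent.NPC Pool.Agent.H697.Exp Pool.Agent.H697.UG Pool.Agent.H697.Red

/-! ### The number of new edges -/

theorem sum_map_filter_zipIdx (I : Game) (Q : Edge × ℕ → Bool) (h : Edge × ℕ → ℕ) :
    ((I.zipIdx.filter Q).map h).sum =
      ∑ p ∈ univ.filter (fun p : Fin I.length => Q (I[p], (p : ℕ)) = true), h (I[p], (p : ℕ)) := by
  have h0 : ∀ l : List (Edge × ℕ), ((l.filter Q).map h).sum =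
      (l.map fun x => if Q x = true then h x else 0).sum := by
    intro l
    induction l with
    | nil => rfl
    | cons a l ih =>
      rw [List.filter_cons, List.map_cons, List.sum_cons]
      by_cases ha : Q a = true
      · rw [if_pos ha, if_pos ha, List.map_cons, List.sum_cons, ih]
      · rw [if_neg ha, if_neg ha, ih, zero_add]
  have h1 : I.zipIdx = List.ofFn fun p : Fin I.length => (I[p], (p : ℕ)) := by
    apply List.ext_getElem
    · simp
    · intro n h1 h2
      simp
  rw [h0, h1, List.map_ofFn, List.sum_ofFn, sum_filter]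
  rfl

theorem card_first (k : Edge → ℕ) (I : Game) {u : ℕ} (hu : degK k I u ≠ 0) :
    (univ.filter fun p : Fin I.length => k I[p] = u ∧
      degK k (I.take p) (k I[p]) = 0).card = 1 := by
  obtain ⟨p, h1, h2⟩ := exists_rank k I (Nat.pos_of_ne_zero hu)
  rw [card_eq_one]
  refine ⟨p, ?_⟩
  ext p'
  simp only [mem_filter, mem_univ, true_and, mem_singleton]
  constructor
  · rintro ⟨h3, h4⟩
    exact rank_inj k I (h3.trans h1.symm) (h4.trans h2.symm)
  · rintro rfl
    exact ⟨h1, h2⟩

theorem degK_self_ne (k : Edge → ℕ) (I : Game) (p : Fin I.length) : degK k I (k I[p]) ≠ 0 :=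
  (lt_of_le_of_lt (Nat.zero_le _) (degK_lt k I p)).ne'

theorem sum_deg_firsts (k : Edge → ℕ) (I : Game) :
    ((firsts k I).map fun ep => degK k I (k ep.1)).sum = I.length := by
  unfold firsts
  rw [sum_map_filter_zipIdx]
  simp only [isFirst, decide_eq_true_eq]
  have h0 : ∀ p : Fin I.length, degK k I (k I[p]) =
      ∑ p' : Fin I.length, if k I[p'] = k I[p] then 1 else 0 := fun p => by
    rw [degK_eq, card_filter]
  rw [sum_congr rfl fun p _ => h0 p, sum_comm]
  have h1 : ∀ p' ∈ (univ : Finset (Fin I.length)), ∑ p ∈ univ.filter (fun p : Fin I.length =>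
      degK k (I.take p) (k I[p]) = 0), (if k I[p'] = k I[p] then 1 else 0) = 1 := by
    intro p' _
    rw [← card_filter, filter_filter, ← card_first k I (degK_self_ne k I p')]
    congr 1
    ext p
    simp only [mem_filter, mem_univ, true_and]
    constructor
    · rintro ⟨h1, h2⟩; exact ⟨h2.symm, h1⟩
    · rintro ⟨h1, h2⟩; exact ⟨h2, h1.symm⟩
  rw [sum_congr rfl h1]
  simp

theorem pad_le (k : Edge → ℕ) (I : Game) {c b : ℕ} (hb : c * c ≤ b) (hb0 : 0 < b) :
    c * ((firsts k I).map fun ep => extra (b * degK k I (k ep.1))).sum ≤ 2 * (b * I.length) := by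
  rw [← sum_deg_firsts k I]
  have h1 : ∀ l : List (Edge × ℕ), (∀ ep ∈ l, degK k I (k ep.1) ≠ 0) →
      c * (l.map fun ep => extra (b * degK k I (k ep.1))).sum ≤
        2 * (b * (l.map fun ep => degK k I (k ep.1)).sum) := by
    intro l hl
    induction l with
    | nil => simp
    | cons ep l ih =>
      have h2 := ih fun ep' hep' => hl ep' (List.mem_cons_of_mem _ hep')
      have h3 := Nat.pos_of_ne_zero (hl ep (List.mem_cons_self ..))
      have h4 := extra_le (k := c) (X := b * degK k I (k ep.1)) (Nat.mul_pos hb0 h3)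
        (hb.trans (Nat.le_mul_of_pos_right _ h3))
      rw [List.map_cons, List.map_cons, List.sum_cons, List.sum_cons, Nat.mul_add, Nat.mul_add,
        Nat.mul_add]
      omega
  refine h1 _ fun ep hep => ?_
  unfold firsts at hep
  obtain ⟨e, j⟩ := ep
  obtain ⟨h2, h3⟩ := List.mem_zipIdx' (List.mem_filter.1 hep).1
  rw [h3]
  exact degK_self_ne k I ⟨j, h2⟩

theorem length_padL (b : ℕ) (I : Game) : (padL b I).length =
    ((firsts kL I).map fun ep => extra (b * degK kL I (kL ep.1))).sum := by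
  unfold padL
  rw [List.length_flatMap]
  simp

theorem length_padR (b : ℕ) (I : Game) : (padR b I).length =
    ((firsts kR I).map fun ep => extra (b * degK kR I (kR ep.1))).sum := by
  unfold padR
  rw [List.length_flatMap]
  simp

theorem length_Sq (b : ℕ) (I : Game) :
    (Sq b I).length = b * I.length + ((padL b I).length + (padR b I).length) := by
  unfold Sq
  rw [List.length_append, List.length_append, List.length_flatMap]
  simp

theorem pads_le (I : Game) {c b : ℕ} (hb : c * c ≤ b) (hb0 : 0 < b) :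
    c * ((padL b I).length + (padR b I).length) ≤ 4 * (b * I.length) := by
  rw [length_padL, length_padR, Nat.mul_add]
  have h1 := pad_le kL I hb hb0
  have h2 := pad_le kR I hb hb0
  omega

/-! ### Value -/

variable {q : ℕ}

theorem numSat_append (l l' : Game) (L M : ℕ → Fin q) :
    numSat (l ++ l') L M = numSat l L M + numSat l' L M := by
  unfold numSat
  rw [List.filter_append, List.length_append]

theorem numSat_le_length (l : Game) (L M : ℕ → Fin q) : numSat l L M ≤ l.length :=
  List.length_filter_le _ _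

theorem numSat_rep (b : ℕ) (I : Game) (L M : ℕ → Fin q) :
    numSat ((List.range b).flatMap fun _ => I.map dbl) L M =
      b * numSat I (fun u => L (2 * u)) (fun v => M (2 * v)) := by
  unfold numSat
  rw [List.filter_flatMap, List.length_flatMap]
  have h1 : ((I.map dbl).filter fun e => decide (Sat L M e)).length =
      (I.filter fun e => decide (Sat (fun u => L (2 * u)) (fun v => M (2 * v)) e)).length := by
    rw [List.filter_map, List.length_map]
    rfl
  simp only [h1]
  simp

theorem sound_Sq (b : ℕ) (I : Game) (L M : ℕ → Fin q) : numSat (Sq b I) L M ≤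
    b * numSat I (fun u => L (2 * u)) (fun v => M (2 * v)) +
      ((padL b I).length + (padR b I).length) := by
  unfold Sq
  rw [numSat_append, numSat_append, numSat_rep]
  have h1 := numSat_le_length (padL b I) L M
  have h2 := numSat_le_length (padR b I) L M
  omega

theorem numSat_eq_length {l : Game} {L M : ℕ → Fin q} (h : ∀ e ∈ l, Sat L M e) :
    numSat l L M = l.length := by
  unfold numSat
  rw [List.filter_eq_self.2]
  intro e he
  exact decide_eq_true (h e he)

theorem firsts_unique {k : Edge → ℕ} {I : Game} {ep ep' : Edge × ℕ} (h : ep ∈ firsts k I)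
    (h' : ep' ∈ firsts k I) (hk : k ep.1 = k ep'.1) : ep = ep' := by
  obtain ⟨e, j⟩ := ep
  obtain ⟨e', j'⟩ := ep'
  unfold firsts at h h'
  obtain ⟨h1, h2⟩ := List.mem_filter.1 h
  obtain ⟨h1', h2'⟩ := List.mem_filter.1 h'
  obtain ⟨h3, h4⟩ := List.mem_zipIdx' h1
  obtain ⟨h3', h4'⟩ := List.mem_zipIdx' h1'
  unfold isFirst at h2 h2'
  rw [decide_eq_true_eq] at h2 h2'
  dsimp only at h2 h2' hk
  have h5 := rank_inj k I (p := ⟨j, h3⟩) (p' := ⟨j', h3'⟩) (by
    show k I[j] = k I[j']
    rw [← h4, ← h4']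
    exact hk) (by
    show degK k (I.take j) (k I[j]) = degK k (I.take j') (k I[j'])
    rw [← h4, ← h4']
    exact h2.trans h2'.symm)
  have h6 : j = j' := congrArg Fin.val h5
  subst h6
  rw [h4, h4']

theorem complete_Sq (hq : 0 < q) (b : ℕ) (I : Game) (L M : ℕ → Fin q)
    (hl : ∀ ep ∈ firsts kL I, ∃ y : Fin q, ep.1.2[(L (kL ep.1) : ℕ)]? = some (y : ℕ)) :
    ∃ L' M' : ℕ → Fin q, b * numSat I L M + (padL b I).length ≤ numSat (Sq b I) L' M' ∧
      ((∀ ep ∈ firsts kR I, ∃ x : Fin q, ep.1.2[(x : ℕ)]? = some (M (kR ep.1) : ℕ)) →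
        b * numSat I L M + ((padL b I).length + (padR b I).length) ≤
          numSat (Sq b I) L' M') := by
  classical
  have h1 : ∀ u : ℕ, ∃ y : Fin q, ∀ ep ∈ firsts kL I, kL ep.1 = u →
      ep.1.2[(L (kL ep.1) : ℕ)]? = some (y : ℕ) := by
    intro u
    by_cases h : ∃ ep ∈ firsts kL I, kL ep.1 = u
    · obtain ⟨ep, hep, hu⟩ := h
      obtain ⟨y, hy⟩ := hl ep hep
      refine ⟨y, fun ep' hep' hu' => ?_⟩
      rw [firsts_unique hep' hep (hu'.trans hu.symm)]
      exact hy
    · exact ⟨⟨0, hq⟩, fun ep hep hu => absurd ⟨ep, hep, hu⟩ h⟩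
  have h2 : ∀ v : ℕ, ∃ x : Fin q, (∀ ep ∈ firsts kR I, ∃ x : Fin q,
      ep.1.2[(x : ℕ)]? = some (M (kR ep.1) : ℕ)) → ∀ ep ∈ firsts kR I, kR ep.1 = v →
      ep.1.2[(x : ℕ)]? = some (M (kR ep.1) : ℕ) := by
    intro v
    by_cases h : ∃ ep ∈ firsts kR I, kR ep.1 = v
    · obtain ⟨ep, hep, hv⟩ := h
      by_cases hr : ∀ ep ∈ firsts kR I, ∃ x : Fin q, ep.1.2[(x : ℕ)]? = some (M (kR ep.1) : ℕ)
      · obtain ⟨x, hx⟩ := hr ep hep
        refine ⟨x, fun _ ep' hep' hv' => ?_⟩
        rw [firsts_unique hep' hep (hv'.trans hv.symm)]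
        exact hx
      · exact ⟨⟨0, hq⟩, fun hr' => absurd hr' hr⟩
    · exact ⟨⟨0, hq⟩, fun _ ep hep hv => absurd ⟨ep, hep, hv⟩ h⟩
  choose Y hY using h1
  choose X hX using h2
  set L' : ℕ → Fin q := fun a => if a % 2 = 0 then L (a / 2) else X (Nat.unpair (a / 2)).1 with hL'
  set M' : ℕ → Fin q := fun a => if a % 2 = 0 then M (a / 2) else Y (Nat.unpair (a / 2)).1 with hM'
  have e1 : ∀ u, L' (2 * u) = L u := by
    intro u
    simp only [hL']
    rw [if_pos (by omega)]
    congr 1
    omega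
  have e2 : ∀ u, M' (2 * u) = M u := by
    intro u
    simp only [hM']
    rw [if_pos (by omega)]
    congr 1
    omega
  have e3 : ∀ u i, L' (2 * Nat.pair u i + 1) = X u := by
    intro u i
    simp only [hL']
    rw [if_neg (by omega)]
    have : (2 * Nat.pair u i + 1) / 2 = Nat.pair u i := by omega
    rw [this, Nat.unpair_pair]
  have e4 : ∀ u i, M' (2 * Nat.pair u i + 1) = Y u := by
    intro u i
    simp only [hM']
    rw [if_neg (by omega)]
    have : (2 * Nat.pair u i + 1) / 2 = Nat.pair u i := by omega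
    rw [this, Nat.unpair_pair]
  have h3 : numSat ((List.range b).flatMap fun _ => I.map dbl) L' M' = b * numSat I L M := by
    rw [numSat_rep]
    simp only [e1, e2]
  have h4 : numSat (padL b I) L' M' = (padL b I).length := by
    refine numSat_eq_length fun e he => ?_
    unfold padL at he
    obtain ⟨ep, hep, he⟩ := List.mem_flatMap.1 he
    obtain ⟨i, _, rfl⟩ := List.mem_map.1 he
    unfold Sat
    dsimp only
    rw [e1, e4]
    exact hY _ ep hep rfl
  refine ⟨L', M', ?_, fun hr => ?_⟩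
  · unfold Sq
    rw [numSat_append, numSat_append, h3, h4]
    omega
  · have h5 : numSat (padR b I) L' M' = (padR b I).length := by
      refine numSat_eq_length fun e he => ?_
      unfold padR at he
      obtain ⟨ep, hep, he⟩ := List.mem_flatMap.1 he
      obtain ⟨i, _, rfl⟩ := List.mem_map.1 he
      unfold Sat
      dsimp only
      rw [e2, e3]
      exact hX _ hr ep hep rfl
    unfold Sq
    rw [numSat_append, numSat_append, h3, h4, h5]

theorem mem_firsts {k : Edge → ℕ} {I : Game} {ep : Edge × ℕ} (h : ep ∈ firsts k I) : ep.1 ∈ I := by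
  obtain ⟨e, j⟩ := ep
  unfold firsts at h
  obtain ⟨h3, h4⟩ := List.mem_zipIdx' (List.mem_filter.1 h).1
  rw [h4]
  exact List.getElem_mem _

theorem tables_Sq {b : ℕ} {I : Game} {e : Edge} (he : e ∈ Sq b I) : ∃ e' ∈ I, e.2 = e'.2 := by
  unfold Sq at he
  rw [List.mem_append, List.mem_append] at he
  rcases he with he | he | he
  · obtain ⟨i, _, he⟩ := List.mem_flatMap.1 he
    obtain ⟨e', he', rfl⟩ := List.mem_map.1 he
    exact ⟨e', he', rfl⟩
  · unfold padL at he
    obtain ⟨ep, hep, he⟩ := List.mem_flatMap.1 he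
    obtain ⟨i, _, rfl⟩ := List.mem_map.1 he
    exact ⟨ep.1, mem_firsts hep, rfl⟩
  · unfold padR at he
    obtain ⟨ep, hep, he⟩ := List.mem_flatMap.1 he
    obtain ⟨i, _, rfl⟩ := List.mem_map.1 he
    exact ⟨ep.1, mem_firsts hep, rfl⟩

/-! ### Running time -/

section
variable {α : Type} [TEnc α]

theorem extra_le' (X : ℕ) : extra X ≤ 2 * X + 1 := by
  rcases Nat.eq_zero_or_pos X with rfl | h
  · decide
  · have := extra_le (k := 1) h h
    omega

theorem poly_root {X Y : α → ℕ} (hX : Poly X) (hY : UPoly Y) (h : ∀ a, X a ≤ Y a) :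
    Poly (fun a => root (X a)) := by
  unfold root
  exact Poly.succ (poly_sqrt (Poly.sub hX (NPC.Poly.const 1)) hY fun a =>
    (Nat.sub_le _ _).trans (h a))

theorem upoly_extra {X Y : α → ℕ} (hX : Poly X) (hY : UPoly Y) (h : ∀ a, X a ≤ Y a) :
    UPoly (fun a => extra (X a)) := by
  have h1 := poly_root hX hY h
  refine UPoly.of_le (n := fun a => 2 * Y a + 1) ?_ (UPoly.add (UPoly.mul (UPoly.const 2) hY)
    (UPoly.const 1)) fun a => ?_
  · refine (Poly.sub (Poly.mul h1 h1) hX).congr fun a => ?_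
    unfold extra
    rw [sq]
  · have := extra_le' (X a)
    have := h a
    omega

theorem poly_firsts {k : Edge → ℕ} (hk : Poly k) : Poly (firsts k) := by
  unfold firsts isFirst
  refine Poly.filter (p := fun (I : Game) (ep : Edge × ℕ) =>
    decide (degK k (I.take ep.2) (k ep.1) = 0)) (Poly.zipIdx Poly.id) ?_
  exact Poly.decide_eq (poly_degK_take hk (Poly.fst Poly.id)
    (hk.comp (Poly.fst (Poly.snd Poly.id))) (Poly.snd (Poly.snd Poly.id))) (NPC.Poly.const 0)

theorem poly_padL (b : ℕ) : Poly (padL b) := by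
  unfold padL
  refine Poly.flatMap (F := fun (I : Game) (ep : Edge × ℕ) =>
    (List.range (extra (b * degK kL I (kL ep.1)))).map fun i =>
      (((2 * kL ep.1, 2 * Nat.pair (kL ep.1) i + 1), ep.1.2) : Edge)) (poly_firsts poly_kL) ?_
  have hu : Poly (fun p : Game × (Edge × ℕ) => kL p.2.1) :=
    poly_kL.comp (Poly.fst (Poly.snd Poly.id))
  have hX : Poly (fun p : Game × (Edge × ℕ) => b * degK kL p.1 (kL p.2.1)) :=
    Poly.mul (NPC.Poly.const b) (poly_degK poly_kL (Poly.fst Poly.id) hu)
  have hR := (upoly_extra hX (UPoly.mul (UPoly.const b) (UPoly.length (Poly.fst Poly.id)))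
    fun p => Nat.mul_le_mul_left _ (List.length_filter_le _ _)).range
  refine NPC.Poly.map (F := fun (p : Game × (Edge × ℕ)) (i : ℕ) =>
    (((2 * kL p.2.1, 2 * Nat.pair (kL p.2.1) i + 1), p.2.1.2) : Edge)) hR ?_
  have hu' : Poly (fun p : (Game × (Edge × ℕ)) × ℕ => kL p.1.2.1) := hu.comp (Poly.fst Poly.id)
  exact Poly.pair (Poly.pair (Poly.mul (NPC.Poly.const 2) hu')
    (Poly.succ (Poly.mul (NPC.Poly.const 2) (poly_pair hu' (Poly.snd Poly.id)))))
    (Poly.snd (Poly.fst (Poly.snd (Poly.fst Poly.id))))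

theorem poly_padR (b : ℕ) : Poly (padR b) := by
  unfold padR
  refine Poly.flatMap (F := fun (I : Game) (ep : Edge × ℕ) =>
    (List.range (extra (b * degK kR I (kR ep.1)))).map fun i =>
      (((2 * Nat.pair (kR ep.1) i + 1, 2 * kR ep.1), ep.1.2) : Edge)) (poly_firsts poly_kR) ?_
  have hu : Poly (fun p : Game × (Edge × ℕ) => kR p.2.1) :=
    poly_kR.comp (Poly.fst (Poly.snd Poly.id))
  have hX : Poly (fun p : Game × (Edge × ℕ) => b * degK kR p.1 (kR p.2.1)) :=
    Poly.mul (NPC.Poly.const b) (poly_degK poly_kR (Poly.fst Poly.id) hu)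
  have hR := (upoly_extra hX (UPoly.mul (UPoly.const b) (UPoly.length (Poly.fst Poly.id)))
    fun p => Nat.mul_le_mul_left _ (List.length_filter_le _ _)).range
  refine NPC.Poly.map (F := fun (p : Game × (Edge × ℕ)) (i : ℕ) =>
    (((2 * Nat.pair (kR p.2.1) i + 1, 2 * kR p.2.1), p.2.1.2) : Edge)) hR ?_
  have hu' : Poly (fun p : (Game × (Edge × ℕ)) × ℕ => kR p.1.2.1) := hu.comp (Poly.fst Poly.id)
  exact Poly.pair (Poly.pair (Poly.succ (Poly.mul (NPC.Poly.const 2)
    (poly_pair hu' (Poly.snd Poly.id)))) (Poly.mul (NPC.Poly.const 2) hu'))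
    (Poly.snd (Poly.fst (Poly.snd (Poly.fst Poly.id))))

theorem poly_Sq (b : ℕ) : Poly (Sq b) := by
  unfold Sq
  refine Poly.append (poly_flatMap_const _ _ fun _ _ => ?_)
    (Poly.append (poly_padL b) (poly_padR b))
  refine NPC.Poly.map (F := fun (_ : Game) (e : Edge) => dbl e) Poly.id ?_
  unfold dbl
  have h2 : Poly (fun p : Game × Edge => p.2) := Poly.snd Poly.id
  exact Poly.pair (Poly.pair (Poly.mul (NPC.Poly.const 2) (Poly.fst (Poly.fst h2)))
    (Poly.mul (NPC.Poly.const 2) (Poly.snd (Poly.fst h2)))) (Poly.snd h2)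

end

end Pool.Agent.H697.LF
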