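import Pool.Agent.H697.LF.GirthLift
import Pool.Agent.H697.LF.SquareVal

/-!
# Counting the vertices and the edges of the constraint graph; labellings of stars
-/

namespace Pool.Agent.H697.LF

open Finset Pool.Agent.NPC Pool.Agent.H697.Exp Pool.Agent.H697.UG Pool.Agent.H697.Red
  Pool.Agent.H697.Forest

variable {J : Game}

/-- The left vertices. -/
def lefts (J : Game) : Finset ℕ := (J.map kL).toFinset

/-- The right vertices. -/
def rights (J : Game) : Finset ℕ := (J.map kR).toFinset

theorem cadj_lr {u v : ℕ} : (cgraph J).Adj (Sum.inl u) (Sum.inr v) ↔ (u, v) ∈ J.map Prod.fst :=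
  Iff.rfl

theorem cadj_rl {u v : ℕ} : (cgraph J).Adj (Sum.inr v) (Sum.inl u) ↔ (u, v) ∈ J.map Prod.fst :=
  Iff.rfl

theorem support_eq (J : Game) : (cgraph J).support =
    (((lefts J).map ⟨Sum.inl, Sum.inl_injective⟩ ∪
      (rights J).map ⟨Sum.inr, Sum.inr_injective⟩ : Finset (ℕ ⊕ ℕ)) : Set (ℕ ⊕ ℕ)) := by
  ext w
  rw [SimpleGraph.mem_support, mem_coe, mem_union, mem_map, mem_map]
  unfold lefts rights
  simp only [List.mem_toFinset, List.mem_map, Function.Embedding.coeFn_mk]
  cases w with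
  | inl u =>
    constructor
    · rintro ⟨w, hw⟩
      cases w with
      | inl v => exact hw.elim
      | inr v =>
        obtain ⟨e, he, h⟩ := List.mem_map.1 (cadj_lr.1 hw)
        exact Or.inl ⟨u, ⟨e, he, congrArg Prod.fst h⟩, rfl⟩
    · rintro (⟨u', ⟨e, he, h⟩, h'⟩ | ⟨u', ⟨e, he, h⟩, h'⟩)
      · have h2 : u' = u := Sum.inl_injective h'
        subst h2
        subst h
        exact ⟨Sum.inr (kR e), cadj_lr.2 (List.mem_map.2 ⟨e, he, rfl⟩)⟩
      · cases h'
  | inr u =>
    constructor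
    · rintro ⟨w, hw⟩
      cases w with
      | inr v => exact hw.elim
      | inl v =>
        obtain ⟨e, he, h⟩ := List.mem_map.1 (cadj_rl.1 hw)
        exact Or.inr ⟨u, ⟨e, he, congrArg Prod.snd h⟩, rfl⟩
    · rintro (⟨u', ⟨e, he, h⟩, h'⟩ | ⟨u', ⟨e, he, h⟩, h'⟩)
      · cases h'
      · have h2 : u' = u := Sum.inr_injective h'
        subst h2
        subst h
        exact ⟨Sum.inl (kL e), cadj_rl.2 (List.mem_map.2 ⟨e, he, rfl⟩)⟩

instance (J : Game) : Finite (cgraph J).support := by
  rw [support_eq]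
  exact Finset.finite_toSet _

theorem card_support (J : Game) :
    Nat.card (cgraph J).support = (lefts J).card + (rights J).card := by
  rw [Nat.card_coe_set_eq, support_eq, Set.ncard_coe_finset, card_union_of_disjoint, card_map,
    card_map]
  rw [disjoint_left]
  intro w h1 h2
  obtain ⟨u, _, rfl⟩ := mem_map.1 h1
  obtain ⟨v, _, h⟩ := mem_map.1 h2
  cases h

theorem no_isolated (J : Game) (a : (cgraph J).support) : ∃ b, (graphOf J).Adj a b := by
  obtain ⟨a, ha⟩ := a
  obtain ⟨b, hab⟩ := (SimpleGraph.mem_support _).1 ha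
  exact ⟨⟨b, (SimpleGraph.mem_support _).2 ⟨a, hab.symm⟩⟩, hab⟩

theorem ncard_edges (hS : Simple J) : (graphOf J).edgeSet.ncard = J.length := by
  have hl : ∀ i : Fin J.length, Sum.inl (kL J[i]) ∈ (cgraph J).support := fun i =>
    ⟨Sum.inr (kR J[i]), cadj_lr.2 (List.mem_map.2 ⟨J[i], List.getElem_mem _, rfl⟩)⟩
  have hr : ∀ i : Fin J.length, Sum.inr (kR J[i]) ∈ (cgraph J).support := fun i =>
    ⟨Sum.inl (kL J[i]), cadj_rl.2 (List.mem_map.2 ⟨J[i], List.getElem_mem _, rfl⟩)⟩
  have hadj : ∀ i : Fin J.length, (graphOf J).Adj ⟨_, hl i⟩ ⟨_, hr i⟩ := fun i =>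
    cadj_lr.2 (List.mem_map.2 ⟨J[i], List.getElem_mem _, rfl⟩)
  have hbij : Function.Bijective (fun i : Fin J.length =>
      (⟨s(⟨_, hl i⟩, ⟨_, hr i⟩), hadj i⟩ : (graphOf J).edgeSet)) := by
    constructor
    · intro i j h
      have h1 := congrArg Subtype.val h
      dsimp only at h1
      rw [Sym2.eq_iff] at h1
      rcases h1 with ⟨h2, h3⟩ | ⟨h2, _⟩
      · have h4 : kL J[i] = kL J[j] := Sum.inl_injective (congrArg Subtype.val h2)
        have h5 : kR J[i] = kR J[j] := Sum.inr_injective (congrArg Subtype.val h3)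
        have h6 : (J[i]).1 = (J[j]).1 := Prod.ext h4 h5
        have h7 := List.nodup_iff_injective_get.1 hS
        have h8 : (⟨(i : ℕ), by simp⟩ : Fin (J.map Prod.fst).length) = ⟨(j : ℕ), by simp⟩ :=
          h7 (by
            simp only [List.get_eq_getElem, List.getElem_map]
            exact h6)
        exact Fin.ext (Fin.mk.inj h8)
      · have h4 := congrArg Subtype.val h2
        cases h4
    · rintro ⟨x, hx⟩
      induction x using Sym2.ind with
      | _ a b =>
        have hab : (graphOf J).Adj a b := hx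
        obtain ⟨a, ha⟩ := a
        obtain ⟨b, hb⟩ := b
        have hab' : (cgraph J).Adj a b := hab
        have key : ∀ (u v : ℕ) (_ : (u, v) ∈ J.map Prod.fst), ∃ i : Fin J.length,
            kL J[i] = u ∧ kR J[i] = v := by
          intro u v huv
          obtain ⟨e, he, h⟩ := List.mem_map.1 huv
          obtain ⟨i, hi, rfl⟩ := List.mem_iff_getElem.1 he
          exact ⟨⟨i, hi⟩, congrArg Prod.fst h, congrArg Prod.snd h⟩
        cases a with
        | inl u =>
          cases b with
          | inl v => exact hab'.elim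
          | inr v =>
            obtain ⟨i, rfl, rfl⟩ := key u v (cadj_lr.1 hab')
            exact ⟨i, rfl⟩
        | inr v =>
          cases b with
          | inr u => exact hab'.elim
          | inl u =>
            obtain ⟨i, rfl, rfl⟩ := key u v (cadj_rl.1 hab')
            exact ⟨i, Subtype.ext Sym2.eq_swap⟩
  rw [← Nat.card_coe_set_eq, ← Nat.card_congr (Equiv.ofBijective _ hbij), Nat.card_eq_fintype_card,
    Fintype.card_fin]

/-! ### Labellings of stars -/

variable {q : ℕ}

/-- A lower bound for the number of satisfied edges. -/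
theorem card_le_numSat (k : Edge → ℕ) (J : Game) (L M : ℕ → Fin q)
    (h : ∀ u ∈ (J.map k).toFinset, ∃ e ∈ J, k e = u ∧ Sat L M e) :
    (J.map k).toFinset.card ≤ numSat J L M := by
  rw [numSat_eq]
  have h1 : (J.map k).toFinset ⊆ (univ.filter fun p : Fin J.length => Sat L M J[p]).image
      fun p : Fin J.length => k J[p] := by
    intro u hu
    obtain ⟨e, he, hk, hs⟩ := h u hu
    obtain ⟨i, hi, rfl⟩ := List.mem_iff_getElem.1 he
    exact mem_image.2 ⟨⟨i, hi⟩, mem_filter.2 ⟨mem_univ _, hs⟩, hk⟩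
  exact (card_le_card h1).trans card_image_le

theorem val_right (hq : 0 < q) (J : Game)
    (hJ : ∀ e ∈ J, ∀ x : Fin q, ∃ y : Fin q, e.2[(x : ℕ)]? = some (y : ℕ)) :
    ∃ L M : ℕ → Fin q, (rights J).card ≤ numSat J L M := by
  classical
  have h1 : ∀ v : ℕ, ∃ y : Fin q, v ∈ rights J → ∃ e ∈ J, kR e = v ∧ e.2[0]? = some (y : ℕ) := by
    intro v
    by_cases hv : v ∈ rights J
    · unfold rights at hv
      rw [List.mem_toFinset, List.mem_map] at hv
      obtain ⟨e, he, h⟩ := hv
      obtain ⟨y, hy⟩ := hJ e he ⟨0, hq⟩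
      exact ⟨y, fun _ => ⟨e, he, h, hy⟩⟩
    · exact ⟨⟨0, hq⟩, fun h => absurd h hv⟩
  choose M hM using h1
  refine ⟨fun _ => ⟨0, hq⟩, M, card_le_numSat kR J _ M fun v hv => ?_⟩
  obtain ⟨e, he, h, hy⟩ := hM v hv
  refine ⟨e, he, h, ?_⟩
  unfold Sat
  show e.2[0]? = some (M (kR e) : ℕ)
  rw [h]
  exact hy

theorem val_left (hq : 0 < q) (J : Game)
    (hJ : ∀ e ∈ J, ∀ y : Fin q, ∃ x : Fin q, e.2[(x : ℕ)]? = some (y : ℕ)) :
    ∃ L M : ℕ → Fin q, (lefts J).card ≤ numSat J L M := by
  classical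
  have h1 : ∀ v : ℕ, ∃ x : Fin q, v ∈ lefts J → ∃ e ∈ J, kL e = v ∧ e.2[(x : ℕ)]? = some 0 := by
    intro v
    by_cases hv : v ∈ lefts J
    · unfold lefts at hv
      rw [List.mem_toFinset, List.mem_map] at hv
      obtain ⟨e, he, h⟩ := hv
      obtain ⟨x, hx⟩ := hJ e he ⟨0, hq⟩
      exact ⟨x, fun _ => ⟨e, he, h, hx⟩⟩
    · exact ⟨⟨0, hq⟩, fun h => absurd h hv⟩
  choose L hL using h1
  refine ⟨L, fun _ => ⟨0, hq⟩, card_le_numSat kL J L _ fun v hv => ?_⟩
  obtain ⟨e, he, h, hx⟩ := hL v hv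
  refine ⟨e, he, h, ?_⟩
  unfold Sat
  show e.2[(L (kL e) : ℕ)]? = some 0
  rw [h]
  exact hx

/-- In a unique game every label of one end of an edge fits to a label of the other end. -/
theorem perm_table {q : ℕ} {l : List ℕ} (h1 : l.length = q) (h2 : ∀ x ∈ l, x < q)
    (h3 : l.Nodup) : (∀ x : Fin q, ∃ y : Fin q, l[(x : ℕ)]? = some (y : ℕ)) ∧
      ∀ y : Fin q, ∃ x : Fin q, l[(x : ℕ)]? = some (y : ℕ) := by
  subst h1
  have h4 : ∀ x : Fin l.length, l[(x : ℕ)]? = some (l.get x) := fun x => by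
    rw [List.getElem?_eq_getElem x.2]; rfl
  set f : Fin l.length → Fin l.length := fun x => ⟨l.get x, h2 _ (List.get_mem l x)⟩ with hf
  have hinj : Function.Injective f := fun x x' h =>
    List.nodup_iff_injective_get.1 h3 (congrArg Fin.val h)
  have hsurj := Finite.injective_iff_surjective.1 hinj
  refine ⟨fun x => ⟨f x, h4 x⟩, fun y => ?_⟩
  obtain ⟨x, hx⟩ := hsurj y
  refine ⟨x, ?_⟩
  rw [h4, ← hx]

/-- Classes of graphs. -/
abbrev GraphClass : Type 1 := (V : Type) → SimpleGraph V → Prop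

/-- The class contains all finite lifts of its finite members in which all cycles are longer than
`g`. -/
def LiftClosed (g : ℕ) (C : GraphClass) : Prop :=
  ∀ (V W : Type) [Finite V] [Finite W] (G : SimpleGraph V) (H : SimpleGraph W) (n : ℕ),
    0 < n → C V G → IsLift n H G → GirthGT H g → C W H

/-- The finite members of the class without isolated vertices have at most `d` times as many edges
as vertices. -/
def Sparse (C : GraphClass) (d : ℕ) : Prop :=
  ∀ (V : Type) [Finite V] (G : SimpleGraph V), (∀ a, ∃ b, G.Adj a b) → C V G →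
    G.edgeSet.ncard ≤ d * Nat.card V

/-- The game is simple and its constraint graph belongs to the class. -/
def On (C : GraphClass) (J : Game) : Prop := Simple J ∧ C _ (graphOf J)

/-- The game is simple and its constraint graph is a lift of `G` in which all cycles are longer than
`g`. -/
def OnLifts (g : ℕ) {V : Type} (G : SimpleGraph V) (J : Game) : Prop :=
  Simple J ∧ GirthGT (graphOf J) g ∧ ∃ n, 0 < n ∧ IsLift n (graphOf J) G

/-- The reduction of lifts to lifts of large girth. -/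
theorem exists_large {V : Type} [Finite V] (G : SimpleGraph V) (g : ℕ)
    (hG : ∀ a, ∃ b, G.Adj a b) {d : ℕ} (hc : d * Nat.card V < G.edgeSet.ncard) :
    ∃ (W : Type) (_ : Finite W) (H : SimpleGraph W), (∀ a, ∃ b, H.Adj a b) ∧
      d * Nat.card W < H.edgeSet.ncard ∧ ∀ J : Game, Simple J →
        (∃ n, 0 < n ∧ IsLift n (graphOf J) H) → OnLifts g G J := by
  obtain ⟨W, hW, H, n, hn, h1, h2⟩ := exists_lift_girth G g
  refine ⟨W, hW, H, h1.exists_adj hG, ?_, ?_⟩
  · rw [h1.card_vertices, h1.card_edges]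
    calc d * (n * Nat.card V) = n * (d * Nat.card V) := by ring
      _ < _ := Nat.mul_lt_mul_of_pos_left hc hn
  · rintro J hS ⟨m, hm, h3⟩
    exact ⟨hS, h3.girth h2, m * n, Nat.mul_pos hm hn, h3.comp h1⟩

theorem Sparse.length_le {C : GraphClass} {d : ℕ} (hC : Sparse C d) (hJ : On C J) :
    J.length ≤ d * ((lefts J).card + (rights J).card) := by
  rw [← card_support, ← ncard_edges hJ.1]
  exact hC _ _ (no_isolated J) hJ.2

end Pool.Agent.H697.LF
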