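import Pool.Agent.H697.LF.Main
import Pool.Agent.H697.LF.Bound
import Pool.Agent.H697.LC.Hard

/-!
# Projection games on classes of graphs closed under lifts
-/

namespace Pool.Agent.H697.LF

open Pool.Agent.NPC Pool.Agent.H697.Exp Pool.Agent.H697.Red Pool.Agent.H697.LC
open Pool.Agent.H697.UG (Game Edge Simple cgraph)

theorem LC_hard_of_reduction {Cl Y N Cl' Y' N' : Game → Prop} (G : Game → Prop)
    (h : Hard Cl Y N) {F : Game → Game} (hF : Poly F) (hYG : ∀ I, Y I → G I) (hNG : ∀ I, N I → G I)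
    (hCl : ∀ I, G I → Cl I → Cl' (F I))
    (hY : ∀ I, Y I → Y' (F I)) (hN : ∀ I, N I → N' (F I)) : Hard Cl' Y' N' := by
  intro L hL
  obtain ⟨f, hf, hfx⟩ := h L hL
  have h1 := polyTime_opt (Poly.optMap (o := unbits Game) (f := fun _ I => F I) poly_unbits
    (hF.comp (Poly.snd Poly.id)))
  refine ⟨_, H642R2.TMSim.polyTime_comp h1 hf, fun x => ?_⟩
  obtain ⟨I, h2, h3, h5, h6⟩ := hfx x
  have hI : G I := by
    by_cases hx : x ∈ L
    · exact hYG I (h5 hx)
    · exact hNG I (h6 hx)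
  refine ⟨F I, ?_, hCl I hI h3, fun hx => hY I (h5 hx), fun hx => hN I (h6 hx)⟩
  simp only [h2, unbits_bits, Option.map_some]

theorem LC_easy_of_reduction {Cl Y N Cl' Y' N' : Game → Prop} (G : Game → Prop)
    (h : Easy Cl' Y' N') {F : Game → Game} (hF : Poly F) (hYG : ∀ I, Y I → G I)
    (hNG : ∀ I, N I → G I) (hCl : ∀ I, G I → Cl I → Cl' (F I))
    (hY : ∀ I, Y I → Y' (F I)) (hN : ∀ I, N I → N' (F I)) : Easy Cl Y N := by
  obtain ⟨P, hP, hsep⟩ := h
  refine ⟨fun I => P (F I), InPP.of_poly hP hF fun _ => Iff.rfl, fun I hI => ⟨fun hy => ?_,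
    fun hn => ?_⟩⟩
  · exact (hsep _ (hCl I (hYG I hy) hI)).1 (hY I hy)
  · exact (hsep _ (hCl I (hNG I hn) hI)).2 (hN I hn)

theorem total_table {d q₁ q₂ : ℕ} {I : Game} (hI : IsGame d q₁ q₂ I) {e : Edge} (he : e ∈ I)
    (x : Fin q₁) : ∃ y : Fin q₂, e.2[(x : ℕ)]? = some (y : ℕ) := by
  obtain ⟨h1, h2, _⟩ := hI.2 e he
  have hx : (x : ℕ) < e.2.length := by rw [h1]; exact x.2
  exact ⟨⟨e.2[(x : ℕ)], h2 _ (List.getElem_mem hx)⟩, List.getElem?_eq_getElem hx⟩

/-- All tables describe maps onto the small alphabet. -/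
def Onto (q₁ q₂ : ℕ) (I : Game) : Prop :=
  ∀ e ∈ I, ∀ y : Fin q₂, ∃ x : Fin q₁, e.2[(x : ℕ)]? = some (y : ℕ)

theorem sum_count (l : List ℕ) (q : ℕ) (h : ∀ x ∈ l, x < q) :
    ∑ y ∈ Finset.range q, l.count y = l.length := by
  induction l with
  | nil => simp
  | cons a l ih =>
    simp only [List.count_cons, List.length_cons, Finset.sum_add_distrib]
    rw [ih fun x hx => h x (List.mem_cons_of_mem _ hx)]
    congr 1
    have ha := h a (List.mem_cons_self ..)
    simp [ha]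

theorem onto_of_eq {d q : ℕ} (hd : 0 < d) {I : Game} (hI : IsGame d (d * q) q I) :
    Onto (d * q) q I := by
  intro e he y
  obtain ⟨h1, h2, h3⟩ := hI.2 e he
  have hmem : (y : ℕ) ∈ e.2 := by
    by_contra hy
    have h4 := sum_count e.2 q h2
    rw [h1, ← Finset.sum_erase_add _ _ (Finset.mem_range.2 y.2), List.count_eq_zero_of_not_mem hy,
      add_zero] at h4
    have h5 : ∑ x ∈ (Finset.range q).erase (y : ℕ), e.2.count x ≤
        ((Finset.range q).erase (y : ℕ)).card * d := by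
      rw [← smul_eq_mul]
      exact Finset.sum_le_card_nsmul _ _ _ fun x _ => h3 x
    rw [Finset.card_erase_of_mem (Finset.mem_range.2 y.2), Finset.card_range] at h5
    have h6 : 0 < q := lt_of_le_of_lt (Nat.zero_le _) y.2
    have h7 : (q - 1) * d < d * q := by
      rw [mul_comm d q]
      exact Nat.mul_lt_mul_of_pos_right (by omega) hd
    omega
  obtain ⟨i, hi, h5⟩ := List.mem_iff_getElem.1 hmem
  refine ⟨⟨i, by rw [← h1]; exact hi⟩, ?_⟩
  rw [← h5]
  exact List.getElem?_eq_getElem hi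

/-- The reduction to projection games on the lifts of a graph. -/
theorem exists_reduction_LC_lift (d : ℕ) {q₁ q₂ : ℕ} (hq₁ : 0 < q₁) (hq₂ : 0 < q₂)
    {ε ε' : ℝ} (hε0 : 0 ≤ ε) (hε : ε < ε') {δ δ' : ℝ} (h : δ < δ') :
    ∃ D : ℕ, ∀ (V : Type) [Finite V] (G : SimpleGraph V) (g : ℕ), (∀ a, ∃ b, G.Adj a b) →
      D * Nat.card V < G.edgeSet.ncard →
    ∃ F : Game → Game, Poly F ∧ (∀ I, IsGame d q₁ q₂ I → OnLifts g G (F I)) ∧
      (∀ I, Yes d q₁ q₂ ε I → Yes d q₁ q₂ ε' (F I)) ∧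
      (∀ I, Yes d q₁ q₂ 0 I → Yes d q₁ q₂ 0 (F I)) ∧
      (∀ I, ∀ ε₀ : ℝ, Onto q₁ q₂ I → Yes d q₁ q₂ ε₀ I → Yes d q₁ q₂ ε₀ (F I)) ∧
      (∀ I, No d q₁ q₂ δ I → No d q₁ q₂ δ' (F I)) := by
  have hq : 0 < max q₁ q₂ := lt_max_of_lt_left hq₁
  obtain ⟨D, hD⟩ := exists_reduction_lift hq (sub_pos.2 hε) h
  refine ⟨D, fun V _ G g hG hc => ?_⟩
  obtain ⟨W, _, H, hH1, hH2, hH3⟩ := exists_large G g hG hc
  obtain ⟨F, hF, hFI⟩ := hD W H hH1 hH2
  have hgame : ∀ I, IsGame d q₁ q₂ I → IsGame d q₁ q₂ (F I) := by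
    rintro I ⟨hne, hI⟩
    obtain ⟨h2, _, _, h5, _, _⟩ := hFI I hne
    refine ⟨h2, fun e he => ?_⟩
    obtain ⟨e', he', heq⟩ := h5 e he
    rw [heq]
    exact hI e' he'
  -- the labellings of the new game
  have hcomp : ∀ I, IsGame d q₁ q₂ I → ∀ (L : ℕ → Fin q₁) (M : ℕ → Fin q₂),
      ∃ (L' : ℕ → Fin q₁) (M' : ℕ → Fin q₂),
        (numSat I L M : ℝ) * (F I).length ≤ (1 + (ε' - ε)) * (numSat (F I) L' M' * I.length) ∧
        ((∀ e ∈ I, ∃ x : Fin q₁, e.2[(x : ℕ)]? = some (M e.1.2 : ℕ)) →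
          (numSat I L M : ℝ) * (F I).length ≤ numSat (F I) L' M' * I.length) := by
    intro I hG L M
    obtain ⟨_, _, _, _, h6, _⟩ := hFI I hG.1
    have h9 : UG.numSat I (fun u => Fin.castLE (le_max_left q₁ q₂) (L u))
        (fun v => Fin.castLE (le_max_right q₁ q₂) (M v)) = numSat I L M := rfl
    obtain ⟨L2, M2, h10, h10'⟩ := h6 (fun u => Fin.castLE (le_max_left q₁ q₂) (L u))
      (fun v => Fin.castLE (le_max_right q₁ q₂) (M v)) (by
        intro e he
        obtain ⟨y, hy⟩ := total_table hG he (L e.1.1)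
        exact ⟨Fin.castLE (le_max_right q₁ q₂) y, hy⟩)
    obtain ⟨L3, M3, h11⟩ := down hq₁ hq₂ (hgame I hG) L2 M2
    rw [h9] at h10 h10'
    have h17 : (UG.numSat (F I) L2 M2 : ℝ) ≤ numSat (F I) L3 M3 := by exact_mod_cast h11
    refine ⟨L3, M3, h10.trans ?_, fun hr => ?_⟩
    · have : 0 < 1 + (ε' - ε) := by linarith
      gcongr
    · have h12 := h10' fun e he => by
        obtain ⟨x, hx⟩ := hr e he
        exact ⟨Fin.castLE (le_max_left q₁ q₂) x, hx⟩
      have h13 : (numSat I L M : ℝ) * (F I).length ≤ UG.numSat (F I) L2 M2 * I.length := by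
        exact_mod_cast h12
      exact h13.trans (by gcongr)
  have hexact : ∀ I, ∀ ε₀ : ℝ, IsGame d q₁ q₂ I → ∀ (L : ℕ → Fin q₁) (M : ℕ → Fin q₂),
      (1 - ε₀) * I.length ≤ numSat I L M →
      (∀ e ∈ I, ∃ x : Fin q₁, e.2[(x : ℕ)]? = some (M e.1.2 : ℕ)) →
      Yes d q₁ q₂ ε₀ (F I) := by
    intro I ε₀ hG L M hLM hr
    obtain ⟨L3, M3, _, h2⟩ := hcomp I hG L M
    refine ⟨hgame I hG, L3, M3, ?_⟩
    have h3 := h2 hr
    have h10 : (0 : ℝ) < I.length := by exact_mod_cast List.length_pos_iff.2 hG.1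
    have h12 : (0 : ℝ) ≤ (F I).length := by positivity
    have h13 : (1 - ε₀) * (F I).length * I.length ≤ numSat (F I) L3 M3 * I.length := by
      calc (1 - ε₀) * (F I).length * I.length = (1 - ε₀) * I.length * (F I).length := by ring
        _ ≤ numSat I L M * (F I).length := mul_le_mul_of_nonneg_right hLM h12
        _ ≤ _ := h3
    exact le_of_mul_le_mul_right h13 h10
  refine ⟨F, hF, fun I hI => ?_, fun I hY => ?_, fun I hY => ?_, fun I ε₀ hon hY => ?_,
    fun I hN => ?_⟩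
  · obtain ⟨_, h3, h4, _, _, _⟩ := hFI I hI.1
    exact hH3 _ h3 h4
  · obtain ⟨hG, L, M, hLM⟩ := hY
    obtain ⟨L3, M3, h1, _⟩ := hcomp I hG L M
    refine ⟨hgame I hG, L3, M3, ?_⟩
    have h10 : (0 : ℝ) < I.length := by exact_mod_cast List.length_pos_iff.2 hG.1
    have h12 : (0 : ℝ) ≤ (F I).length := by positivity
    have h14 : (1 - ε) * (F I).length * I.length ≤
        (1 + (ε' - ε)) * numSat (F I) L3 M3 * I.length := by
      calc (1 - ε) * (F I).length * I.length = (1 - ε) * I.length * (F I).length := by ring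
        _ ≤ numSat I L M * (F I).length := mul_le_mul_of_nonneg_right hLM h12
        _ ≤ (1 + (ε' - ε)) * (numSat (F I) L3 M3 * I.length) := h1
        _ = _ := by ring
    have h15 := le_of_mul_le_mul_right h14 h10
    have hε'0 : 0 ≤ ε' := hε0.trans hε.le
    by_cases hneg : 1 - ε' < 0
    · have h16 : (0 : ℝ) ≤ numSat (F I) L3 M3 := by positivity
      nlinarith
    · push Not at hneg
      have hpos : 0 < 1 + (ε' - ε) := by linarith
      have h16 : (1 - ε') * (1 + (ε' - ε)) ≤ 1 - ε := by nlinarith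
      have h17 : (1 + (ε' - ε)) * ((1 - ε') * (F I).length) ≤
          (1 + (ε' - ε)) * numSat (F I) L3 M3 := by
        calc (1 + (ε' - ε)) * ((1 - ε') * (F I).length) =
            ((1 - ε') * (1 + (ε' - ε))) * (F I).length := by ring
          _ ≤ (1 - ε) * (F I).length := mul_le_mul_of_nonneg_right h16 h12
          _ ≤ _ := h15
      exact le_of_mul_le_mul_left h17 hpos
  · obtain ⟨hG, L, M, hLM⟩ := hY
    refine hexact I 0 hG L M hLM ?_
    have h1 : numSat I L M = I.length := by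
      have h2 : (I.length : ℝ) ≤ numSat I L M := by linarith
      have h3 : I.length ≤ numSat I L M := by exact_mod_cast h2
      have h4 : numSat I L M ≤ I.length := List.length_filter_le _ _
      omega
    intro e he
    unfold numSat at h1
    rw [List.length_filter_eq_length_iff] at h1
    exact ⟨L e.1.1, of_decide_eq_true (h1 e he)⟩
  · obtain ⟨hG, L, M, hLM⟩ := hY
    exact hexact I ε₀ hG L M hLM fun e he => hon e he _
  · obtain ⟨hG, hno⟩ := hN
    obtain ⟨_, _, _, _, _, h7⟩ := hFI I hG.1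
    refine ⟨hgame I hG, fun L M => ?_⟩
    obtain ⟨L1, M1, h9⟩ := up (le_max_left q₁ q₂) (le_max_right q₁ q₂) (F I) L M
    rw [← h9]
    refine h7 (fun L2 M2 => ?_) L1 M1
    obtain ⟨L3, M3, h11⟩ := down hq₁ hq₂ hG L2 M2
    have h17 : (UG.numSat I L2 M2 : ℝ) ≤ numSat I L3 M3 := by exact_mod_cast h11
    exact h17.trans (hno L3 M3)

/-! ### Sparse classes -/

theorem LC_card_le_numSat {q₁ q₂ : ℕ} (k : Edge → ℕ) (J : Game) (L : ℕ → Fin q₁)
    (M : ℕ → Fin q₂) (S : Finset ℕ) (h : ∀ u ∈ S, ∃ e ∈ J, k e = u ∧ Sat L M e) :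
    S.card ≤ numSat J L M := by
  have h1 : S ⊆ ((J.filter fun e => decide (Sat L M e)).map k).toFinset := by
    intro u hu
    obtain ⟨e, he, hk, hs⟩ := h u hu
    rw [List.mem_toFinset, List.mem_map]
    exact ⟨e, List.mem_filter.2 ⟨he, decide_eq_true hs⟩, hk⟩
  refine (Finset.card_le_card h1).trans ((List.toFinset_card_le _).trans ?_)
  rw [List.length_map]
  exact le_rfl

theorem LC_val_right {d q₁ q₂ : ℕ} (hq₁ : 0 < q₁) (hq₂ : 0 < q₂) {J : Game}
    (hJ : IsGame d q₁ q₂ J) :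
    ∃ (L : ℕ → Fin q₁) (M : ℕ → Fin q₂), (rights J).card ≤ numSat J L M := by
  classical
  have h1 : ∀ v : ℕ, ∃ y : Fin q₂, v ∈ rights J → ∃ e ∈ J, kR e = v ∧
      e.2[0]? = some (y : ℕ) := by
    intro v
    by_cases hv : v ∈ rights J
    · unfold rights at hv
      rw [List.mem_toFinset, List.mem_map] at hv
      obtain ⟨e, he, h⟩ := hv
      obtain ⟨y, hy⟩ := total_table hJ he ⟨0, hq₁⟩
      exact ⟨y, fun _ => ⟨e, he, h, hy⟩⟩
    · exact ⟨⟨0, hq₂⟩, fun h => absurd h hv⟩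
  choose M hM using h1
  refine ⟨fun _ => ⟨0, hq₁⟩, M, LC_card_le_numSat kR J _ M _ fun v hv => ?_⟩
  obtain ⟨e, he, h, hy⟩ := hM v hv
  refine ⟨e, he, h, ?_⟩
  unfold Sat
  show e.2[0]? = some (M (kR e) : ℕ)
  rw [h]
  exact hy

theorem image_card {d q₁ q₂ : ℕ} {J : Game} (hJ : IsGame d q₁ q₂ J) {e : Edge} (he : e ∈ J) :
    q₁ ≤ d * ((Finset.univ : Finset (Fin q₂)).filter fun y : Fin q₂ => (y : ℕ) ∈ e.2).card := by
  obtain ⟨h1, h2, h3⟩ := hJ.2 e he
  have h4 := sum_count e.2 q₂ h2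
  rw [← h1, ← h4, Finset.sum_range fun y => e.2.count y, mul_comm, ← smul_eq_mul]
  rw [← Finset.sum_filter_add_sum_filter_not Finset.univ fun y : Fin q₂ => (y : ℕ) ∈ e.2]
  have h5 : ∑ y ∈ (Finset.univ : Finset (Fin q₂)).filter (fun y : Fin q₂ => ¬ (y : ℕ) ∈ e.2),
      e.2.count (y : ℕ) = 0 :=
    Finset.sum_eq_zero fun y hy => List.count_eq_zero_of_not_mem (Finset.mem_filter.1 hy).2
  rw [h5, add_zero]
  exact Finset.sum_le_card_nsmul _ _ _ fun y _ => h3 y

theorem LC_val_left {d q₁ q₂ : ℕ} (hq₁ : 0 < q₁) (hq₂ : 0 < q₂) {J : Game}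
    (hJ : IsGame d q₁ q₂ J) :
    ∃ (L : ℕ → Fin q₁) (M : ℕ → Fin q₂), q₁ * (lefts J).card ≤ d * q₂ * numSat J L M := by
  classical
  obtain ⟨e0, he0⟩ := List.exists_mem_of_ne_nil J hJ.1
  have h1 : ∀ u : ℕ, ∃ e ∈ J, u ∈ lefts J → kL e = u := by
    intro u
    by_cases hu : u ∈ lefts J
    · unfold lefts at hu
      rw [List.mem_toFinset, List.mem_map] at hu
      obtain ⟨e, he, h⟩ := hu
      exact ⟨e, he, fun _ => h⟩
    · exact ⟨e0, he0, fun h => absurd h hu⟩
  choose ed hed hedk using h1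
  -- the best label of a right vertex
  have h2 : ∀ v : ℕ, ∃ y : Fin q₂, q₁ * ((lefts J).filter fun u => kR (ed u) = v).card ≤
      d * q₂ * ((lefts J).filter fun u => kR (ed u) = v ∧ (y : ℕ) ∈ (ed u).2).card := by
    intro v
    have h3 : q₁ * ((lefts J).filter fun u => kR (ed u) = v).card ≤
        d * ∑ y : Fin q₂, ((lefts J).filter fun u => kR (ed u) = v ∧ (y : ℕ) ∈ (ed u).2).card := by
      have h4 : ∑ y : Fin q₂, ((lefts J).filter fun u => kR (ed u) = v ∧
          (y : ℕ) ∈ (ed u).2).card = ∑ u ∈ (lefts J).filter (fun u => kR (ed u) = v),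
          ((Finset.univ : Finset (Fin q₂)).filter fun y : Fin q₂ => (y : ℕ) ∈ (ed u).2).card := by
        simp only [Finset.card_filter]
        rw [Finset.sum_comm, Finset.sum_filter]
        refine Finset.sum_congr rfl fun u _ => ?_
        by_cases hu : kR (ed u) = v
        · simp only [hu, true_and, if_true]
        · simp only [hu, false_and, if_false, Finset.sum_const_zero]
      rw [h4, Finset.mul_sum]
      calc q₁ * ((lefts J).filter fun u => kR (ed u) = v).card =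
            ∑ u ∈ (lefts J).filter (fun u => kR (ed u) = v), q₁ := by
            rw [Finset.sum_const, smul_eq_mul, mul_comm]
        _ ≤ _ := Finset.sum_le_sum fun u _ => image_card hJ (hed u)
    have hne : (Finset.univ : Finset (Fin q₂)).Nonempty := ⟨⟨0, hq₂⟩, Finset.mem_univ _⟩
    obtain ⟨y, _, hy⟩ := Finset.exists_max_image Finset.univ (fun y : Fin q₂ =>
      ((lefts J).filter fun u => kR (ed u) = v ∧ (y : ℕ) ∈ (ed u).2).card) hne
    refine ⟨y, h3.trans ?_⟩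
    have h5 := Finset.sum_le_card_nsmul Finset.univ (fun y : Fin q₂ =>
      ((lefts J).filter fun u => kR (ed u) = v ∧ (y : ℕ) ∈ (ed u).2).card) _ fun y' _ =>
        hy y' (Finset.mem_univ _)
    rw [Finset.card_univ, Fintype.card_fin, smul_eq_mul] at h5
    calc _ ≤ d * (q₂ * ((lefts J).filter fun u => kR (ed u) = v ∧ (y : ℕ) ∈ (ed u).2).card) :=
          Nat.mul_le_mul_left _ h5
      _ = _ := by ring
  choose M hM using h2
  have h3 : ∀ u : ℕ, ∃ x : Fin q₁, (M (kR (ed u)) : ℕ) ∈ (ed u).2 →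
      (ed u).2[(x : ℕ)]? = some (M (kR (ed u)) : ℕ) := by
    intro u
    by_cases hu : (M (kR (ed u)) : ℕ) ∈ (ed u).2
    · obtain ⟨i, hi, h5⟩ := List.mem_iff_getElem.1 hu
      refine ⟨⟨i, by rw [← (hJ.2 _ (hed u)).1]; exact hi⟩, fun _ => ?_⟩
      rw [← h5]
      exact List.getElem?_eq_getElem hi
    · exact ⟨⟨0, hq₁⟩, fun h => absurd h hu⟩
  choose L hL using h3
  refine ⟨L, M, ?_⟩
  have h4 : ((lefts J).filter fun u => (M (kR (ed u)) : ℕ) ∈ (ed u).2).card ≤ numSat J L M := by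
    refine LC_card_le_numSat kL J L M _ fun u hu => ?_
    obtain ⟨hu1, hu2⟩ := Finset.mem_filter.1 hu
    refine ⟨ed u, hed u, hedk u hu1, ?_⟩
    have h5 := hL u hu2
    unfold Sat
    show (ed u).2[(L (kL (ed u)) : ℕ)]? = some (M (kR (ed u)) : ℕ)
    rw [hedk u hu1]
    exact h5
  refine le_trans ?_ (Nat.mul_le_mul_left _ h4)
  have h5 : (lefts J).card = ∑ v ∈ (lefts J).image (fun u => kR (ed u)),
      ((lefts J).filter fun u => kR (ed u) = v).card :=
    Finset.card_eq_sum_card_image _ _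
  have h6 : ((lefts J).filter fun u => (M (kR (ed u)) : ℕ) ∈ (ed u).2).card =
      ∑ v ∈ (lefts J).image (fun u => kR (ed u)),
      ((lefts J).filter fun u => kR (ed u) = v ∧ (M v : ℕ) ∈ (ed u).2).card := by
    rw [Finset.card_eq_sum_card_fiberwise (f := fun u => kR (ed u))
      (t := (lefts J).image fun u => kR (ed u)) (fun u hu =>
        Finset.mem_image_of_mem _ (Finset.mem_filter.1 hu).1)]
    refine Finset.sum_congr rfl fun v _ => ?_
    rw [Finset.filter_filter]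
    congr 1
    ext u
    simp only [Finset.mem_filter]
    constructor
    · rintro ⟨h7, h8, rfl⟩; exact ⟨h7, rfl, h8⟩
    · rintro ⟨h7, rfl, h8⟩; exact ⟨h7, h8, rfl⟩
  rw [h5, h6, Finset.mul_sum, Finset.mul_sum]
  exact Finset.sum_le_sum fun v _ => hM v

/-- Projection games on sparse graphs have a large value. -/
theorem LC_value_of_sparse {d q₁ q₂ : ℕ} (hq₁ : 0 < q₁) (hq₂ : 0 < q₂) {C : GraphClass} {D : ℕ}
    (hC : Sparse C D) {J : Game} (hJ : On C J) (hG : IsGame d q₁ q₂ J) :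
    ∃ (L : ℕ → Fin q₁) (M : ℕ → Fin q₂),
      q₁ * J.length ≤ D * (q₁ + d * q₂) * numSat J L M := by
  have hlen := hC.length_le hJ
  obtain ⟨L1, M1, h1⟩ := LC_val_right hq₁ hq₂ hG
  obtain ⟨L2, M2, h2⟩ := LC_val_left hq₁ hq₂ hG
  rcases le_total (numSat J L1 M1) (numSat J L2 M2) with h | h
  · refine ⟨L2, M2, ?_⟩
    calc q₁ * J.length ≤ q₁ * (D * ((lefts J).card + (rights J).card)) :=
          Nat.mul_le_mul_left _ hlen
      _ = D * (q₁ * (lefts J).card + q₁ * (rights J).card) := by ring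
      _ ≤ D * (d * q₂ * numSat J L2 M2 + q₁ * numSat J L2 M2) :=
          Nat.mul_le_mul_left _ (Nat.add_le_add h2 (Nat.mul_le_mul_left _ (h1.trans h)))
      _ = _ := by ring
  · refine ⟨L1, M1, ?_⟩
    calc q₁ * J.length ≤ q₁ * (D * ((lefts J).card + (rights J).card)) :=
          Nat.mul_le_mul_left _ hlen
      _ = D * (q₁ * (lefts J).card + q₁ * (rights J).card) := by ring
      _ ≤ D * (d * q₂ * numSat J L1 M1 + q₁ * numSat J L1 M1) :=
          Nat.mul_le_mul_left _ (Nat.add_le_add (h2.trans (Nat.mul_le_mul_left _ h))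
            (Nat.mul_le_mul_left _ h1))
      _ = _ := by ring

/-- In a sparse class there are no no-instances with a small parameter. -/
theorem LC_easy_of_sparse {d q₁ q₂ : ℕ} (hq₁ : 0 < q₁) (hq₂ : 0 < q₂) {C : GraphClass} {D : ℕ}
    (hC : Sparse C D) (Y : Game → Prop) {δ : ℝ} (hδ : D * (q₁ + d * q₂) * δ < q₁) :
    Easy (On C) Y (No d q₁ q₂ δ) := by
  refine ⟨fun _ => True, inPP_of (P := fun _ : Game => True) (d := fun _ : Game => true)
      (NPC.Poly.const true) fun _ => by simp, fun J hJ => ⟨fun _ => trivial, ?_⟩⟩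
  rintro ⟨hG, hno⟩ -
  obtain ⟨L, M, h1⟩ := LC_value_of_sparse hq₁ hq₂ hC hJ hG
  have h2 := hno L M
  have h3 : (q₁ * J.length : ℝ) ≤ D * (q₁ + d * q₂) * numSat J L M := by exact_mod_cast h1
  have h4 : (0 : ℝ) < J.length := by exact_mod_cast List.length_pos_iff.2 hG.1
  have h5 : (D * (q₁ + d * q₂) : ℝ) * numSat J L M ≤ D * (q₁ + d * q₂) * (δ * J.length) :=
    mul_le_mul_of_nonneg_left h2 (by positivity)
  have h6 : (D * (q₁ + d * q₂) * δ) * J.length < q₁ * J.length :=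
    mul_lt_mul_of_pos_right hδ h4
  linarith

end Pool.Agent.H697.LF
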