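import Pool.Agent.H697.LF.Main
import Pool.Agent.H697.LF.Bound
import Pool.Agent.H697.UG.Hard

/-!
# Unique games on classes of graphs closed under lifts
-/

namespace Pool.Agent.H697.LF

open Pool.Agent.NPC Pool.Agent.H697.Exp Pool.Agent.H697.UG Pool.Agent.H697.Red
  Pool.Agent.H697.Forest

theorem hard_of_reduction {Cl Cl' : Game → Prop} {q : ℕ} {ε δ ε' δ' : ℝ} (h : Hard Cl q ε δ)
    {F : Game → Game} (hF : Poly F) (hCl : ∀ I, IsGame q I → Cl I → Cl' (F I))
    (hY : ∀ I, Yes q ε I → Yes q ε' (F I)) (hN : ∀ I, No q δ I → No q δ' (F I)) :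
    Hard Cl' q ε' δ' := by
  intro L hL
  obtain ⟨f, hf, hfx⟩ := h L hL
  have h1 := polyTime_opt (Poly.optMap (o := unbits Game) (f := fun _ I => F I) poly_unbits
    (hF.comp (Poly.snd Poly.id)))
  refine ⟨_, H642R2.TMSim.polyTime_comp h1 hf, fun x => ?_⟩
  obtain ⟨I, h2, h3, h5, h6⟩ := hfx x
  have hI : IsGame q I := by
    by_cases hx : x ∈ L
    · exact (h5 hx).1
    · exact (h6 hx).1
  refine ⟨F I, ?_, hCl I hI h3, fun hx => hY I (h5 hx), fun hx => hN I (h6 hx)⟩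
  simp only [h2, unbits_bits, Option.map_some]

theorem easy_of_reduction {Cl Cl' : Game → Prop} {q : ℕ} {ε δ ε' δ' : ℝ} (h : Easy Cl' q ε' δ')
    {F : Game → Game} (hF : Poly F) (hCl : ∀ I, IsGame q I → Cl I → Cl' (F I))
    (hY : ∀ I, Yes q ε I → Yes q ε' (F I)) (hN : ∀ I, No q δ I → No q δ' (F I)) :
    Easy Cl q ε δ := by
  obtain ⟨P, hP, hsep⟩ := h
  refine ⟨fun I => P (F I), InPP.of_poly hP hF fun _ => Iff.rfl, fun I hI => ⟨fun hy => ?_,
    fun hn => ?_⟩⟩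
  · exact (hsep _ (hCl I hy.1 hI)).1 (hY I hy)
  · exact (hsep _ (hCl I hn.1 hI)).2 (hN I hn)

/-- The reduction to unique games on the lifts of a graph. -/
theorem exists_reduction_UG {q : ℕ} (hq : 0 < q) {δ δ' : ℝ} (h : δ < δ') :
    ∃ d : ℕ, ∀ (V : Type) [Finite V] (G : SimpleGraph V) (g : ℕ), (∀ a, ∃ b, G.Adj a b) →
      d * Nat.card V < G.edgeSet.ncard →
    ∃ F : Game → Game, Poly F ∧ (∀ I, IsGame q I → OnLifts g G (F I)) ∧
      (∀ ε : ℝ, ∀ I, Yes q ε I → Yes q ε (F I)) ∧ (∀ I, No q δ I → No q δ' (F I)) := by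
  obtain ⟨d, hd⟩ := exists_reduction_lift hq (κ := 1) one_pos h
  refine ⟨d, fun V _ G g hG hc => ?_⟩
  obtain ⟨W, _, H, hH1, hH2, hH3⟩ := exists_large G g hG hc
  obtain ⟨F, hF, hFI⟩ := hd W H hH1 hH2
  have hgame : ∀ I, IsGame q I → IsGame q (F I) := by
    rintro I ⟨hne, hI⟩
    obtain ⟨h2, _, _, h5, _, _⟩ := hFI I hne
    refine ⟨h2, fun e he => ?_⟩
    obtain ⟨e', he', heq⟩ := h5 e he
    rw [heq]
    exact hI e' he'
  refine ⟨F, hF, fun I hI => ?_, fun ε I hY => ?_, fun I hN => ?_⟩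
  · obtain ⟨_, h3, h4, _, _, _⟩ := hFI I hI.1
    exact hH3 _ h3 h4
  · obtain ⟨hG, L, M, hLM⟩ := hY
    obtain ⟨_, _, _, _, h6, _⟩ := hFI I hG.1
    have htab : ∀ e ∈ I, (∀ x : Fin q, ∃ y : Fin q, e.2[(x : ℕ)]? = some (y : ℕ)) ∧
        ∀ y : Fin q, ∃ x : Fin q, e.2[(x : ℕ)]? = some (y : ℕ) := fun e he =>
      perm_table (hG.2 e he).1 (hG.2 e he).2.1 (hG.2 e he).2.2
    obtain ⟨L', M', _, h8⟩ := h6 L M fun e he => (htab e he).1 _
    have h9 := h8 fun e he => (htab e he).2 _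
    refine ⟨hgame I hG, L', M', ?_⟩
    have h10 : (0 : ℝ) < I.length := by exact_mod_cast List.length_pos_iff.2 hG.1
    have h11 : (numSat I L M : ℝ) * (F I).length ≤ numSat (F I) L' M' * I.length := by
      exact_mod_cast h9
    have h12 : (0 : ℝ) ≤ (F I).length := by positivity
    have h13 : (1 - ε) * (F I).length * I.length ≤ numSat (F I) L' M' * I.length := by
      calc (1 - ε) * (F I).length * I.length = (1 - ε) * I.length * (F I).length := by ring
        _ ≤ numSat I L M * (F I).length := mul_le_mul_of_nonneg_right hLM h12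
        _ ≤ _ := h11
    exact le_of_mul_le_mul_right h13 h10
  · obtain ⟨hG, hno⟩ := hN
    obtain ⟨_, _, _, _, _, h7⟩ := hFI I hG.1
    exact ⟨hgame I hG, h7 hno⟩

/-- Unique games on sparse graphs have a large value. -/
theorem value_of_sparse {q : ℕ} (hq : 0 < q) {C : GraphClass} {d : ℕ} (hC : Sparse C d) {J : Game}
    (hJ : On C J) (hG : IsGame q J) :
    ∃ L M : ℕ → Fin q, J.length ≤ 2 * d * numSat J L M := by
  have hlen := hC.length_le hJ
  have htab : ∀ e ∈ J, (∀ x : Fin q, ∃ y : Fin q, e.2[(x : ℕ)]? = some (y : ℕ)) ∧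
      ∀ y : Fin q, ∃ x : Fin q, e.2[(x : ℕ)]? = some (y : ℕ) := fun e he =>
    perm_table (hG.2 e he).1 (hG.2 e he).2.1 (hG.2 e he).2.2
  obtain ⟨L1, M1, h1⟩ := val_right hq J fun e he => (htab e he).1
  obtain ⟨L2, M2, h2⟩ := val_left hq J fun e he => (htab e he).2
  rcases le_total (lefts J).card (rights J).card with h | h
  · refine ⟨L1, M1, hlen.trans ?_⟩
    calc d * ((lefts J).card + (rights J).card) ≤ d * (2 * numSat J L1 M1) :=
          Nat.mul_le_mul_left _ (by omega)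
      _ = 2 * d * numSat J L1 M1 := by ring
  · refine ⟨L2, M2, hlen.trans ?_⟩
    calc d * ((lefts J).card + (rights J).card) ≤ d * (2 * numSat J L2 M2) :=
          Nat.mul_le_mul_left _ (by omega)
      _ = 2 * d * numSat J L2 M2 := by ring

theorem not_no_of_sparse {q : ℕ} (hq : 0 < q) {C : GraphClass} {d : ℕ} (hC : Sparse C d)
    {J : Game} (hJ : On C J) {δ : ℝ} (hδ : 2 * d * δ < 1) : ¬ No q δ J := by
  rintro ⟨hG, hno⟩
  obtain ⟨L, M, h1⟩ := value_of_sparse hq hC hJ hG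
  have h2 := hno L M
  have h3 : (J.length : ℝ) ≤ 2 * d * numSat J L M := by exact_mod_cast h1
  have h4 : (0 : ℝ) < J.length := by exact_mod_cast List.length_pos_iff.2 hG.1
  have h5 : (2 * d : ℝ) * numSat J L M ≤ 2 * d * (δ * J.length) :=
    mul_le_mul_of_nonneg_left h2 (by positivity)
  nlinarith

theorem easy_of_sparse {q : ℕ} (hq : 0 < q) {C : GraphClass} {d : ℕ} (hC : Sparse C d)
    (ε : ℝ) {δ : ℝ} (hδ : 2 * d * δ < 1) : Easy (On C) q ε δ :=
  ⟨fun _ => True, inPP_of (P := fun _ : Game => True) (d := fun _ : Game => true)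
      (NPC.Poly.const true) fun _ => by simp,
    fun _ hI => ⟨fun _ => trivial, fun hn => absurd hn (not_no_of_sparse hq hC hI hδ)⟩⟩

/-- Lift-closed classes. -/
theorem lift_dichotomy (g : ℕ) (C : GraphClass) (hC : LiftClosed g C) :
    (∀ d : ℕ, Sparse C d → (∀ (q : ℕ) (ε δ : ℝ), 0 < q → 2 * d * δ < 1 → Easy (On C) q ε δ) ∧
      (UGC (On C) → ∀ L : Set (List Bool), InNP L → InP L)) ∧
    ((∀ d : ℕ, ¬ Sparse C d) → (UGC (On C) ↔ UGC fun _ => True) ∧
      ∀ (q : ℕ) (ε δ δ' : ℝ), 0 < q → δ < δ' →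
        (Hard (fun _ => True) q ε δ → Hard (On C) q ε δ') ∧
        (Easy (On C) q ε δ' → Easy (fun _ => True) q ε δ)) := by
  constructor
  · intro d hd
    have heasy : ∀ (q : ℕ) (ε δ : ℝ), 0 < q → 2 * d * δ < 1 → Easy (On C) q ε δ :=
      fun q ε δ hq hδ => easy_of_sparse hq hd ε hδ
    refine ⟨heasy, fun hU => ?_⟩
    have hd0 : (0 : ℝ) ≤ d := by positivity
    set γ : ℝ := 1 / (2 * d + 3) with hγ
    have hγ0 : 0 < γ := by positivity
    have hγ1 : γ + γ < 1 := by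
      rw [hγ, ← add_div, div_lt_one (by positivity)]
      linarith
    have hγ2 : 2 * d * γ < 1 := by
      rw [hγ, mul_one_div, div_lt_one (by positivity)]
      linarith
    obtain ⟨q, hq, hhard⟩ := hU γ γ hγ0 hγ0 hγ1
    exact hhard.collapse (heasy q γ γ hq hγ2)
  · intro hd
    have hmain : ∀ (q : ℕ) (ε δ δ' : ℝ), 0 < q → δ < δ' →
        (Hard (fun _ => True) q ε δ → Hard (On C) q ε δ') ∧
        (Easy (On C) q ε δ' → Easy (fun _ => True) q ε δ) := by
      intro q ε δ δ' hq h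
      obtain ⟨d, hd'⟩ := exists_reduction_UG hq h
      have h1 := hd d
      unfold Sparse at h1
      push Not at h1
      obtain ⟨V, hV, G, hG, hCG, hcard⟩ := h1
      obtain ⟨F, hF, hCl, hY, hN⟩ := hd' V G g hG hcard
      have hCl' : ∀ I, IsGame q I → True → On C (F I) := by
        intro I hI _
        obtain ⟨hS, hg, n, hn, hl⟩ := hCl I hI
        exact ⟨hS, hC V _ G _ n hn hCG hl hg⟩
      exact ⟨fun h => hard_of_reduction h hF hCl' (hY ε) hN,
        fun h => easy_of_reduction h hF hCl' (hY ε) hN⟩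
    refine ⟨⟨fun hU ε δ hε hδ hεδ => ?_, fun hU ε δ hε hδ hεδ => ?_⟩, hmain⟩
    · obtain ⟨q, hq, h⟩ := hU ε δ hε hδ hεδ
      exact ⟨q, hq, h.mono (fun _ _ => trivial) le_rfl le_rfl⟩
    · obtain ⟨q, hq, h⟩ := hU ε (δ / 2) hε (by linarith) (by linarith)
      exact ⟨q, hq, (hmain q ε (δ / 2) δ hq (by linarith)).1 h⟩

/-- The lifts of one graph. -/
theorem lifts_of_one {q : ℕ} (hq : 0 < q) {δ δ' : ℝ} (h : δ < δ') :
    ∃ d : ℕ, ∀ (V : Type) [Finite V] (G : SimpleGraph V) (g : ℕ), (∀ a, ∃ b, G.Adj a b) →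
      d * Nat.card V < G.edgeSet.ncard → ∀ ε : ℝ,
        (Hard (fun _ => True) q ε δ → Hard (OnLifts g G) q ε δ') ∧
        (Easy (OnLifts g G) q ε δ' → Easy (fun _ => True) q ε δ) := by
  obtain ⟨d, hd⟩ := exists_reduction_UG hq h
  refine ⟨d, fun V _ G g hG hc ε => ?_⟩
  obtain ⟨F, hF, hCl, hY, hN⟩ := hd V G g hG hc
  exact ⟨fun h => hard_of_reduction h hF (fun I hI _ => hCl I hI) (hY ε) hN,
    fun h => easy_of_reduction h hF (fun I hI _ => hCl I hI) (hY ε) hN⟩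

end Pool.Agent.H697.LF
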