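import Mathlib

/-!
# Edge colourings with small discrepancy

If there are many edges then a random colouring of the edges splits each set of a small family of
sets of edges evenly.
-/

namespace Pool.Agent.H697.LF

open Finset

variable {ι J C : Type} [Fintype ι] [DecidableEq ι] [Fintype J] [Fintype C] [DecidableEq C]

theorem exp_le_quad {l : ℝ} (h0 : 0 ≤ l) (h1 : l ≤ 1) : Real.exp l - 1 ≤ l + l ^ 2 := by
  have h := Real.abs_exp_sub_one_sub_id_le (x := l) (by rw [abs_of_nonneg h0]; exact h1)
  have h2 := (abs_le.1 h).2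
  linarith

theorem sum_exp_color (hC : 0 < Fintype.card C) (Q : Finset ι) (c : C) {l : ℝ} (h0 : 0 ≤ l)
    (h1 : l ≤ 1) : ∑ col : ι → C, Real.exp (l * ((Q.filter fun e => col e = c).card : ℝ)) ≤
      (Fintype.card C : ℝ) ^ Fintype.card ι *
        Real.exp ((l + l ^ 2) / Fintype.card C * Q.card) := by
  have hC' : (0 : ℝ) < Fintype.card C := by exact_mod_cast hC
  set g : ι → C → ℝ := fun e c' => if e ∈ Q ∧ c' = c then Real.exp l else 1 with hg
  have h2 : ∀ col : ι → C, Real.exp (l * ((Q.filter fun e => col e = c).card : ℝ)) =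
      ∏ e, g e (col e) := by
    intro col
    simp only [hg]
    rw [prod_ite, prod_const_one, mul_one, prod_const, mul_comm, Real.exp_nat_mul]
    congr 2
    ext e
    simp
  simp only [h2]
  have h3 : ∑ col : ι → C, ∏ e, g e (col e) = ∏ e, ∑ c', g e c' := by
    rw [prod_univ_sum, Fintype.piFinset_univ]
  rw [h3]
  have h4 : ∀ e, ∑ c', g e c' ≤ (Fintype.card C : ℝ) *
      (if e ∈ Q then Real.exp ((l + l ^ 2) / Fintype.card C) else 1) := by
    intro e
    by_cases he : e ∈ Q
    · simp only [hg, he, true_and, if_true]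
      have h5 : ∑ c' : C, (if c' = c then Real.exp l else 1) =
          (Fintype.card C : ℝ) + (Real.exp l - 1) := by
        have : ∀ c' : C, (if c' = c then Real.exp l else (1 : ℝ)) =
            1 + (if c' = c then Real.exp l - 1 else 0) := by
          intro c'; split_ifs <;> ring
        simp only [this, sum_add_distrib, sum_ite_eq', mem_univ, if_true, sum_const, card_univ,
          nsmul_eq_mul, mul_one]
      rw [h5]
      have h6 := exp_le_quad h0 h1
      have h7 := Real.add_one_le_exp ((l + l ^ 2) / Fintype.card C)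
      have h8 := mul_le_mul_of_nonneg_left h7 hC'.le
      have h9 : (Fintype.card C : ℝ) * ((l + l ^ 2) / Fintype.card C + 1) =
          l + l ^ 2 + Fintype.card C := by field_simp
      linarith
    · simp only [hg, he, false_and, if_false, sum_const, card_univ, nsmul_eq_mul, mul_one]
      exact le_rfl
  refine (prod_le_prod (fun e _ => ?_) fun e _ => h4 e).trans (le_of_eq ?_)
  · exact sum_nonneg fun c' _ => by simp only [hg]; split_ifs <;> positivity
  · rw [prod_mul_distrib, prod_const, card_univ, prod_ite, prod_const_one, mul_one, prod_const,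
      ← Real.exp_nat_mul]
    congr 2
    rw [mul_comm]
    congr 2
    simp

theorem card_bad (hC : 2 ≤ Fintype.card C) (Q : Finset ι) (c : C) {η : ℝ} (h0 : 0 < η)
    (h1 : η ≤ 1) : ((univ.filter fun col : ι → C =>
      (Q.card : ℝ) / Fintype.card C + η * Fintype.card ι <
        ((Q.filter fun e => col e = c).card : ℝ)).card : ℝ) ≤
      (Fintype.card C : ℝ) ^ Fintype.card ι * Real.exp (-(η ^ 2 * Fintype.card ι / 2)) := by
  have hC' : (2 : ℝ) ≤ Fintype.card C := by exact_mod_cast hC
  have hQ : (Q.card : ℝ) ≤ Fintype.card ι := by exact_mod_cast card_le_univ Q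
  set a : ℝ := (Q.card : ℝ) / Fintype.card C + η * Fintype.card ι with ha
  have h2 := sum_exp_color (by omega) Q c h0.le h1
  have h3 : ((univ.filter fun col : ι → C =>
      a < ((Q.filter fun e => col e = c).card : ℝ)).card : ℝ) * Real.exp (η * a) ≤
      ∑ col : ι → C, Real.exp (η * ((Q.filter fun e => col e = c).card : ℝ)) := by
    rw [card_eq_sum_ones]
    push_cast
    rw [sum_mul]
    refine (sum_le_sum (s := univ.filter fun col : ι → C =>
      a < ((Q.filter fun e => col e = c).card : ℝ)) fun col hcol => ?_).trans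
      (sum_le_sum_of_subset_of_nonneg (subset_univ _) fun col _ _ => (Real.exp_pos _).le)
    rw [one_mul, Real.exp_le_exp]
    exact mul_le_mul_of_nonneg_left (mem_filter.1 hcol).2.le h0.le
  have h4 := h3.trans h2
  rw [← le_div_iff₀ (Real.exp_pos _)] at h4
  refine h4.trans ?_
  rw [mul_div_assoc, ← Real.exp_sub]
  refine mul_le_mul_of_nonneg_left ?_ (by positivity)
  rw [Real.exp_le_exp, ha]
  have h5 : (η + η ^ 2) / Fintype.card C * Q.card -
      η * ((Q.card : ℝ) / Fintype.card C + η * Fintype.card ι) =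
      η ^ 2 * (Q.card / Fintype.card C - Fintype.card ι) := by ring
  rw [h5]
  have h6 : (Q.card : ℝ) / Fintype.card C ≤ Fintype.card ι / 2 := by
    rw [div_le_div_iff₀ (by linarith) (by norm_num)]
    have : (0 : ℝ) ≤ Q.card := by positivity
    nlinarith
  have h7 : η ^ 2 * (Q.card / Fintype.card C - Fintype.card ι) ≤
      η ^ 2 * (Fintype.card ι / 2 - Fintype.card ι) :=
    mul_le_mul_of_nonneg_left (by linarith) (by positivity)
  refine h7.trans (le_of_eq ?_)
  ring

/-- A colouring which splits all sets of the family evenly. -/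
theorem exists_col (hC : 2 ≤ Fintype.card C) (Q : J → Finset ι) {η : ℝ} (h0 : 0 < η) (h1 : η ≤ 1)
    (h : (Fintype.card J : ℝ) * Fintype.card C < Real.exp (η ^ 2 * Fintype.card ι / 2)) :
    ∃ col : ι → C, ∀ j c, (((Q j).filter fun e => col e = c).card : ℝ) ≤
      ((Q j).card : ℝ) / Fintype.card C + η * Fintype.card ι := by
  by_contra hcon
  push Not at hcon
  have hC' : (0 : ℝ) < Fintype.card C := by
    have : 0 < Fintype.card C := by omega
    exact_mod_cast this
  have h2 : (univ : Finset (ι → C)) ⊆ (univ : Finset (J × C)).biUnion fun jc =>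
      univ.filter fun col : ι → C => ((Q jc.1).card : ℝ) / Fintype.card C + η * Fintype.card ι <
        (((Q jc.1).filter fun e => col e = jc.2).card : ℝ) := by
    intro col _
    obtain ⟨j, c, hjc⟩ := hcon col
    rw [mem_biUnion]
    exact ⟨(j, c), mem_univ _, mem_filter.2 ⟨mem_univ _, hjc⟩⟩
  have h3 := (card_le_card h2).trans card_biUnion_le
  have h4 : ((Fintype.card (ι → C) : ℕ) : ℝ) ≤ ∑ jc : J × C,
      (Fintype.card C : ℝ) ^ Fintype.card ι * Real.exp (-(η ^ 2 * Fintype.card ι / 2)) := by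
    rw [card_univ] at h3
    have h3' : ((Fintype.card (ι → C) : ℕ) : ℝ) ≤ ((∑ jc : J × C, (univ.filter fun col : ι → C =>
        ((Q jc.1).card : ℝ) / Fintype.card C + η * Fintype.card ι <
        (((Q jc.1).filter fun e => col e = jc.2).card : ℝ)).card : ℕ) : ℝ) := by exact_mod_cast h3
    refine h3'.trans ?_
    push_cast
    exact sum_le_sum fun jc _ => card_bad hC (Q jc.1) jc.2 h0 h1
  rw [sum_const, card_univ, Fintype.card_prod, nsmul_eq_mul, Fintype.card_fun] at h4
  push_cast at h4
  have h5 : (0 : ℝ) < (Fintype.card C : ℝ) ^ Fintype.card ι := by positivity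
  have h6 : (Fintype.card J : ℝ) * Fintype.card C * Real.exp (-(η ^ 2 * Fintype.card ι / 2)) < 1 := by
    rw [Real.exp_neg, ← div_eq_mul_inv, div_lt_one (Real.exp_pos _)]
    exact h
  have h7 : (Fintype.card J : ℝ) * Fintype.card C * ((Fintype.card C : ℝ) ^ Fintype.card ι *
      Real.exp (-(η ^ 2 * Fintype.card ι / 2))) < (Fintype.card C : ℝ) ^ Fintype.card ι := by
    calc (Fintype.card J : ℝ) * Fintype.card C * ((Fintype.card C : ℝ) ^ Fintype.card ι *
      Real.exp (-(η ^ 2 * Fintype.card ι / 2))) = (Fintype.card C : ℝ) ^ Fintype.card ι *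
      ((Fintype.card J : ℝ) * Fintype.card C * Real.exp (-(η ^ 2 * Fintype.card ι / 2))) := by ring
      _ < (Fintype.card C : ℝ) ^ Fintype.card ι * 1 := mul_lt_mul_of_pos_left h6 h5
      _ = _ := mul_one _
  linarith

/-- Colours of the pairs in `E`: all rectangles are split evenly. -/
theorem exists_pair_col (hC : 2 ≤ Fintype.card C) (M : ℕ) (E : Finset (ℕ × ℕ)) {η : ℝ}
    (h0 : 0 < η) (h1 : η ≤ 1)
    (h : (4 : ℝ) ^ M * Fintype.card C < Real.exp (η ^ 2 * E.card / 2)) :
    ∃ col : ℕ × ℕ → C, ∀ c, ∀ S ⊆ range M, ∀ T ⊆ range M,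
      ((E.filter fun e => col e = c ∧ e.1 ∈ S ∧ e.2 ∈ T).card : ℝ) ≤
      ((E.filter fun e => e.1 ∈ S ∧ e.2 ∈ T).card : ℝ) / Fintype.card C + η * E.card := by
  classical
  have : Nonempty C := Fintype.card_pos_iff.1 (by omega)
  obtain ⟨c0⟩ := this
  obtain ⟨col, hcol⟩ := exists_col (ι := E) (J := (range M).powerset × (range M).powerset) hC
    (fun j => univ.filter fun e : E => (e : ℕ × ℕ).1 ∈ (j.1 : Finset ℕ) ∧
      (e : ℕ × ℕ).2 ∈ (j.2 : Finset ℕ)) h0 h1 (by
      rw [Fintype.card_prod, Fintype.card_coe, Fintype.card_coe, card_powerset, card_range]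
      have h3 : (((2 ^ M * 2 ^ M : ℕ)) : ℝ) = 4 ^ M := by
        push_cast
        rw [← mul_pow]
        norm_num
      rw [h3]
      exact h)
  refine ⟨fun e => if he : e ∈ E then col ⟨e, he⟩ else c0, fun c S hS T hT => ?_⟩
  have h2 := hcol (⟨S, mem_powerset.2 hS⟩, ⟨T, mem_powerset.2 hT⟩) c
  rw [Fintype.card_coe] at h2
  have e1 : (E.filter fun e => e.1 ∈ S ∧ e.2 ∈ T).card = (univ.filter fun e : E =>
      (e : ℕ × ℕ).1 ∈ S ∧ (e : ℕ × ℕ).2 ∈ T).card := by
    rw [← card_map (Function.Embedding.subtype _)]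
    congr 1
    ext e
    simp only [mem_filter, mem_map, mem_univ, true_and, Function.Embedding.coe_subtype]
    constructor
    · rintro ⟨h3, h4⟩
      exact ⟨⟨e, h3⟩, h4, rfl⟩
    · rintro ⟨x, h4, rfl⟩
      exact ⟨x.2, h4⟩
  have e2 : (E.filter fun e => (if he : e ∈ E then col ⟨e, he⟩ else c0) = c ∧ e.1 ∈ S ∧
      e.2 ∈ T).card = ((univ.filter fun e : E =>
      (e : ℕ × ℕ).1 ∈ S ∧ (e : ℕ × ℕ).2 ∈ T).filter fun e => col e = c).card := by
    rw [← card_map (Function.Embedding.subtype _)]
    congr 1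
    ext e
    simp only [mem_filter, mem_map, mem_univ, true_and, Function.Embedding.coe_subtype]
    constructor
    · rintro ⟨h3, h4, h5⟩
      rw [dif_pos h3] at h4
      exact ⟨⟨e, h3⟩, ⟨h5, h4⟩, rfl⟩
    · rintro ⟨x, ⟨h5, h4⟩, rfl⟩
      refine ⟨x.2, ?_, h5⟩
      rw [dif_pos x.2]
      exact h4
  rw [e1, e2]
  exact h2

end Pool.Agent.H697.LF
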