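import Pool.Agent.H697.LF.Lift
import Pool.Agent.H697.Exp.Girth

/-!
# Lifts of large girth
-/

namespace Pool.Agent.H697.LF

open Finset SimpleGraph Pool.Agent.H697.Exp

/-! ### Reduced words -/

/-- Reduced words of darts. -/
abbrev RWord (V : Type) (g : ℕ) : Type :=
  {l : List (V × V) // l.length ≤ g ∧ l.IsChain fun (x y : V × V) => x ≠ y.swap}

instance (V : Type) [Finite V] (g : ℕ) : Finite (RWord V g) := by
  have h := List.finite_length_le (V × V) g
  have h2 : {l : List (V × V) | l.length ≤ g ∧ l.IsChain fun (x y : V × V) => x ≠ y.swap} ⊆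
      {l : List (V × V) | l.length ≤ g} := fun l hl => hl.1
  exact (h.subset h2).to_subtype

variable {V : Type} {g : ℕ}

/-- The last step of the word is the reverse of the dart. -/
def Rev (d : V × V) (l : List (V × V)) : Prop := l.head? = some d.swap

theorem chain_cons {d : V × V} {l : List (V × V)} (hl : l.IsChain fun x y => x ≠ y.swap)
    (hd : ¬ Rev d l) : (d :: l).IsChain fun x y => x ≠ y.swap := by
  cases l with
  | nil => exact List.isChain_singleton _
  | cons e l =>
    rw [List.isChain_cons_cons]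
    refine ⟨fun h => hd ?_, hl⟩
    unfold Rev
    rw [List.head?_cons, h, Prod.swap_swap]

theorem exists_perm [Finite V] (d : V × V) (hd : d.1 ≠ d.2) :
    ∃ ρ : Equiv.Perm (RWord V g), (∀ w, w.1.length < g → ¬ Rev d w.1 → (ρ w).1 = d :: w.1) ∧
      ∀ w, Rev d w.1 → (ρ w).1 = w.1.tail := by
  classical
  have := Fintype.ofFinite (RWord V g)
  -- the partial injection
  let dom : RWord V g → Prop := fun w => w.1.length < g ∨ Rev d w.1
  let f : {w // dom w} → RWord V g := fun w =>
    if h : Rev d w.1.1 then ⟨w.1.1.tail, by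
        rw [List.length_tail]; exact (Nat.sub_le _ _).trans w.1.2.1, w.1.2.2.tail⟩
    else ⟨d :: w.1.1, by
        have := w.2.resolve_right h
        rw [List.length_cons]; omega, chain_cons w.1.2.2 h⟩
  have hne : d ≠ d.swap := fun h => hd (congrArg Prod.fst h)
  have hcons : ∀ w : RWord V g, Rev d w.1 → w.1 = d.swap :: w.1.tail := by
    intro w hw
    unfold Rev at hw
    cases h : w.1 with
    | nil => rw [h] at hw; simp at hw
    | cons a l =>
      rw [h] at hw
      simp only [List.head?_cons, Option.some.injEq] at hw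
      rw [hw]
      rfl
  have hmix : ∀ (w w' : RWord V g), Rev d w.1 → w.1.tail ≠ d :: w'.1 := by
    intro w w' hw h
    have h1 := hcons w hw
    have h2 := w.2.2
    rw [h1, h, List.isChain_cons_cons] at h2
    exact h2.1 rfl
  have hf : Function.Injective f := by
    rintro ⟨w, hw⟩ ⟨w', hw'⟩ h
    simp only [f] at h
    by_cases h1 : Rev d w.1 <;> by_cases h2 : Rev d w'.1
    · rw [dif_pos h1, dif_pos h2] at h
      have h3 := congrArg Subtype.val h
      dsimp only at h3
      have h4 : w.1 = w'.1 := by rw [hcons w h1, hcons w' h2, h3]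
      exact Subtype.ext (Subtype.ext h4)
    · rw [dif_pos h1, dif_neg h2] at h
      exact absurd (congrArg Subtype.val h) (hmix w w' h1)
    · rw [dif_neg h1, dif_pos h2] at h
      exact absurd (congrArg Subtype.val h).symm (hmix w' w h2)
    · rw [dif_neg h1, dif_neg h2] at h
      have h3 := congrArg Subtype.val h
      dsimp only at h3
      exact Subtype.ext (Subtype.ext (List.cons.inj h3).2)
  let e : {w // dom w} ≃ {w // w ∈ Set.range f} := Equiv.ofInjective f hf
  refine ⟨e.extendSubtype, fun w hw hr => ?_, fun w hr => ?_⟩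
  · rw [Equiv.extendSubtype_apply_of_mem e w (Or.inl hw)]
    show (f ⟨w, Or.inl hw⟩).1 = _
    simp only [f]
    rw [dif_neg hr]
  · rw [Equiv.extendSubtype_apply_of_mem e w (Or.inr hr)]
    show (f ⟨w, Or.inr hr⟩).1 = _
    simp only [f]
    rw [dif_pos hr]

/-- The permutations for all darts. -/
theorem exists_voltage [Finite V] (g : ℕ) : ∃ ρ : V → V → Equiv.Perm (RWord V g),
    (∀ a b, a ≠ b → ρ b a * ρ a b = 1) ∧
      ∀ a b, a ≠ b → ∀ w, w.1.length < g → ¬ Rev (a, b) w.1 → (ρ a b w).1 = (a, b) :: w.1 := by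
  classical
  obtain ⟨n, ⟨e⟩⟩ := Finite.exists_equiv_fin V
  have h1 : ∀ d : V × V, ∃ ρ : Equiv.Perm (RWord V g), d.1 ≠ d.2 →
      (∀ w, w.1.length < g → ¬ Rev d w.1 → (ρ w).1 = d :: w.1) ∧
      ∀ w, Rev d w.1 → (ρ w).1 = w.1.tail := by
    intro d
    by_cases hd : d.1 ≠ d.2
    · obtain ⟨ρ, h⟩ := exists_perm (g := g) d hd
      exact ⟨ρ, fun _ => h⟩
    · exact ⟨1, fun h => absurd h hd⟩
  choose ρ hρ using h1
  refine ⟨fun a b => if e a < e b then ρ (a, b) else (ρ (b, a))⁻¹, ?_, ?_⟩
  · intro a b hab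
    beta_reduce
    rcases lt_trichotomy (e a) (e b) with h | h | h
    · rw [if_pos h, if_neg (not_lt.2 h.le)]
      exact inv_mul_cancel _
    · exact absurd (e.injective h) hab
    · rw [if_pos h, if_neg (not_lt.2 h.le)]
      exact mul_inv_cancel _
  · intro a b hab w hw hr
    beta_reduce
    rcases lt_trichotomy (e a) (e b) with h | h | h
    · rw [if_pos h]
      exact (hρ (a, b) hab).1 w hw hr
    · exact absurd (e.injective h) hab
    · rw [if_neg (not_lt.2 h.le)]
      set w' : RWord V g := ⟨(a, b) :: w.1, by rw [List.length_cons]; omega,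
        chain_cons w.2.2 hr⟩ with hw'
      have h2 : ρ (b, a) w' = w := by
        apply Subtype.ext
        exact (hρ (b, a) hab.symm).2 w' rfl
      have h3 : (ρ (b, a))⁻¹ w = w' := by
        rw [← h2]
        exact (ρ (b, a)).symm_apply_apply w'
      rw [h3]

section
variable [Finite V] (G : SimpleGraph V)

/-- The derived graph of the voltages. -/
def derived {X : Type} (ρ : V → V → Equiv.Perm X) (h : ∀ a b, a ≠ b → ρ b a * ρ a b = 1) :
    SimpleGraph (V × Equiv.Perm X) where
  Adj x y := G.Adj x.1 y.1 ∧ y.2 = ρ x.1 y.1 * x.2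
  symm := ⟨by
    rintro ⟨a, σ⟩ ⟨b, τ⟩ ⟨h1, h2⟩
    refine ⟨h1.symm, ?_⟩
    dsimp only at h1 h2 ⊢
    rw [h2, ← mul_assoc, h a b h1.ne, one_mul]⟩
  loopless := ⟨fun x hx => G.loopless.irrefl _ hx.1⟩

variable {G}

/-- The action of a walk. -/
def act {X : Type} (ρ : V → V → Equiv.Perm X) : ∀ {a b : V}, G.Walk a b → Equiv.Perm X
  | _, _, Walk.nil => 1
  | a, _, Walk.cons (v := b) _ q => act ρ q * ρ a b

omit [Finite V] in
theorem act_apply {ρ : V → V → Equiv.Perm (RWord V g)}
    (hρ : ∀ a b, a ≠ b → ∀ w, w.1.length < g → ¬ Rev (a, b) w.1 → (ρ a b w).1 = (a, b) :: w.1)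
    {a b : V} (p : G.Walk a b) (hp : List.IsChain (· ≠ ·) p.edges) (w : RWord V g)
    (hlen : w.1.length + p.length ≤ g)
    (hw : ∀ c, p.edges.head? = some s(a, c) → w.1.head? ≠ some (c, a)) :
    (act ρ p w).1.length = w.1.length + p.length := by
  induction p generalizing w with
  | nil => rfl
  | @cons u v x hadj q ih =>
    rw [Walk.length_cons] at hlen ⊢
    have h1 : (ρ u v w).1 = (u, v) :: w.1 := by
      refine hρ u v hadj.ne w (by omega) fun hr => ?_
      refine hw v ?_ hr
      rw [Walk.edges_cons, List.head?_cons]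
    have h2 : (act ρ (Walk.cons hadj q) w) = act ρ q (ρ u v w) := rfl
    rw [h2, ih ?_ (ρ u v w) ?_ ?_, h1, List.length_cons]
    · omega
    · cases q with
      | nil => simp
      | cons _ _ =>
        simp only [Walk.edges_cons, List.isChain_cons_cons] at hp ⊢
        exact hp.2
    · rw [h1, List.length_cons]; omega
    · intro c hc hc'
      rw [h1, List.head?_cons, Option.some.injEq, Prod.mk.injEq] at hc'
      obtain ⟨rfl, _⟩ := hc'
      cases q with
      | nil => simp at hc
      | cons _ _ =>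
        simp only [Walk.edges_cons, List.isChain_cons_cons, List.head?_cons,
          Option.some.injEq] at hp hc
        apply hp.1
        rw [hc, Sym2.eq_swap]

omit [Finite V] in
theorem walk_act {X : Type} {ρ : V → V → Equiv.Perm X}
    (h : ∀ a b, a ≠ b → ρ b a * ρ a b = 1) (φ : derived G ρ h →g G) (hφ : ∀ x, φ x = x.1)
    {x y : V × Equiv.Perm X} (p : (derived G ρ h).Walk x y) :
    y.2 = act ρ (p.map φ) * x.2 := by
  induction p with
  | nil => rw [Walk.map_nil]; exact (one_mul _).symm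
  | @cons u v w hadj q ih =>
    rw [ih, Walk.map_cons]
    have h1 : v.2 = ρ u.1 v.1 * u.2 := hadj.2
    have h2 : ρ (φ u) (φ v) = ρ u.1 v.1 := by rw [hφ, hφ]
    show act ρ (q.map φ) * v.2 = act ρ (q.map φ) * ρ (φ u) (φ v) * u.2
    rw [h1, h2, mul_assoc]

end

/-- Every finite graph has a finite lift of large girth. -/
theorem exists_lift_girth [Finite V] (G : SimpleGraph V) (g : ℕ) :
    ∃ (W : Type) (_ : Finite W) (H : SimpleGraph W) (n : ℕ), 0 < n ∧ IsLift n H G ∧
      GirthGT H g := by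
  classical
  obtain ⟨ρ, h1, h2⟩ := exists_voltage (V := V) g
  have : Finite (Equiv.Perm (RWord V g)) := inferInstance
  set φ : derived G ρ h1 →g G := ⟨Prod.fst, fun h => h.1⟩ with hφ
  refine ⟨V × Equiv.Perm (RWord V g), inferInstance, derived G ρ h1,
    Nat.card (Equiv.Perm (RWord V g)), Nat.card_pos, ⟨Prod.fst, ?_, ?_⟩, ?_⟩
  · rintro ⟨a, σ⟩
    refine ⟨fun y hy => hy.1, ?_, ?_⟩
    · rintro ⟨b, τ⟩ hb ⟨b', τ'⟩ hb' heq
      dsimp only at heq
      subst heq
      have e1 : τ = ρ a b * σ := hb.2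
      have e2 : τ' = ρ a b * σ := hb'.2
      rw [e1, e2]
    · intro b hb
      exact ⟨(b, ρ a b * σ), ⟨hb, rfl⟩, rfl⟩
  · intro v
    refine Nat.card_congr ⟨fun x => x.1.2, fun σ => ⟨(v, σ), rfl⟩, ?_, fun _ => rfl⟩
    rintro ⟨⟨a, σ⟩, rfl⟩
    rfl
  · intro x p hp
    by_contra hcon
    push Not at hcon
    have hinj : ∀ a b b', (derived G ρ h1).Adj a b → (derived G ρ h1).Adj a b' →
        φ b = φ b' → b = b' := by
      rintro ⟨a, σ⟩ ⟨b, τ⟩ ⟨b', τ'⟩ hb hb' heq
      have heq' : b = b' := heq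
      subst heq'
      have e1 : τ = ρ a b * σ := hb.2
      have e2 : τ' = ρ a b * σ := hb'.2
      rw [e1, e2]
    have h3 := chain_map φ hinj p hp.isTrail.edges_nodup.isChain
    have h4 := walk_act h1 φ (fun _ => rfl) p
    have h5 : act ρ (p.map φ) = 1 := by
      have : (1 : Equiv.Perm (RWord V g)) * x.2 = act ρ (p.map φ) * x.2 := by
        rw [one_mul]; exact h4
      exact (mul_right_cancel this).symm
    have h6 := act_apply (g := g) h2 (p.map φ) h3 ⟨[], Nat.zero_le _, List.isChain_nil⟩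
      (by rw [Walk.length_map]; simpa using hcon) (fun c _ => by simp)
    rw [h5] at h6
    simp only [Equiv.Perm.coe_one, id_eq, List.length_nil, Walk.length_map, zero_add] at h6
    have := hp.three_le_length
    omega

/-! ### Lifts of lifts -/

theorem IsLift.comp {U W : Type} [Finite U] [Finite W] {m n : ℕ} {K : SimpleGraph U}
    {H : SimpleGraph W} {G : SimpleGraph V} (h : IsLift m K H) (h' : IsLift n H G) :
    IsLift (m * n) K G := by
  obtain ⟨ψ, h1, h2⟩ := h
  obtain ⟨φ, h3, h4⟩ := h'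
  refine ⟨φ ∘ ψ, fun w => (h3 _).comp (h1 _), fun v => ?_⟩
  have e : {w // (φ ∘ ψ) w = v} ≃ Σ x : {x // φ x = v}, {w // ψ w = x.1} :=
    { toFun := fun w => ⟨⟨ψ w.1, w.2⟩, ⟨w.1, rfl⟩⟩
      invFun := fun s => ⟨s.2.1, by
        show φ (ψ s.2.1) = v
        rw [s.2.2]; exact s.1.2⟩
      left_inv := fun w => rfl
      right_inv := by
        rintro ⟨⟨x, hx⟩, ⟨w, hw⟩⟩
        dsimp only at hw
        subst hw
        rfl }
  have := Fintype.ofFinite {x // φ x = v}
  rw [Nat.card_congr e, Nat.card_sigma]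
  rw [Finset.sum_congr rfl fun x _ => h2 x.1, Finset.sum_const, Finset.card_univ,
    ← Nat.card_eq_fintype_card, h4, smul_eq_mul, mul_comm]

theorem IsLift.exists_adj {W : Type} {n : ℕ} {H : SimpleGraph W} {G : SimpleGraph V}
    (h : IsLift n H G) (hG : ∀ a, ∃ b, G.Adj a b) (w : W) : ∃ w', H.Adj w w' := by
  obtain ⟨φ, h1, _⟩ := h
  obtain ⟨b, hb⟩ := hG (φ w)
  obtain ⟨w', hw', _⟩ := (h1 w).2.2 hb
  exact ⟨w', hw'⟩

theorem IsLift.card_vertices [Finite V] {W : Type} [Finite W] {n : ℕ} {H : SimpleGraph W}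
    {G : SimpleGraph V} (h : IsLift n H G) : Nat.card W = n * Nat.card V := by
  obtain ⟨φ, _, h2⟩ := h
  have := Fintype.ofFinite V
  rw [← Nat.card_congr (Equiv.sigmaFiberEquiv φ), Nat.card_sigma,
    Finset.sum_congr rfl fun x _ => h2 x, Finset.sum_const, Finset.card_univ,
    ← Nat.card_eq_fintype_card, smul_eq_mul, mul_comm]

theorem IsLift.card_edges [Finite V] {W : Type} [Finite W] {n : ℕ} {H : SimpleGraph W}
    {G : SimpleGraph V} (h : IsLift n H G) : H.edgeSet.ncard = n * G.edgeSet.ncard := by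
  classical
  obtain ⟨φ, h1, h2⟩ := h
  have := Fintype.ofFinite V
  have := Fintype.ofFinite W
  have h3 : ∀ w, H.degree w = G.degree (φ w) := by
    intro w
    rw [← card_neighborSet_eq_degree, ← card_neighborSet_eq_degree]
    exact Fintype.card_congr (h1 w).equiv
  have h4 := H.sum_degrees_eq_twice_card_edges
  have h5 := G.sum_degrees_eq_twice_card_edges
  have h6 : ∑ w, H.degree w = n * ∑ v, G.degree v := by
    rw [← Finset.sum_fiberwise_of_maps_to (s := univ) (t := univ) (g := φ)
      (fun _ _ => Finset.mem_univ _), Finset.mul_sum]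
    refine Finset.sum_congr rfl fun v _ => ?_
    rw [Finset.sum_congr rfl fun w hw => by rw [h3, (Finset.mem_filter.1 hw).2],
      Finset.sum_const, smul_eq_mul]
    congr 1
    rw [← h2 v, Nat.card_eq_fintype_card, Fintype.card_subtype]
  rw [Set.ncard_eq_toFinset_card', Set.ncard_eq_toFinset_card']
  have h7 : 2 * H.edgeFinset.card = 2 * (n * G.edgeFinset.card) := by
    rw [← h4, h6, h5]
    ring
  exact Nat.eq_of_mul_eq_mul_left two_pos h7

theorem IsLift.girth {W : Type} {n g : ℕ} {H : SimpleGraph W} {G : SimpleGraph V}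
    (h : IsLift n H G) (hG : GirthGT G g) : GirthGT H g := by
  obtain ⟨φ, h1, _⟩ := h
  exact girthGT_of_hom (G := H) (G' := G) ⟨φ, fun {a b} hab => (h1 a).1 hab⟩
    (fun a b b' hb hb' heq => (h1 a).2.1 hb hb' heq) hG

end Pool.Agent.H697.LF
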