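import Pool.Agent.H697.LF.Psi

/-!
# The constraint graph of the new game is a lift of the coloured graph
-/

namespace Pool.Agent.H697.LF

open Finset Pool.Agent.NPC Pool.Agent.H697.Exp Pool.Agent.H697.UG Pool.Agent.H697.Red
  Pool.Agent.H697.Forest

/-- The constraint graph of a game, on the set of its vertices (the ends of its edges): left
vertices `Sum.inl u` and right vertices `Sum.inr v`. -/
def graphOf (J : Game) : SimpleGraph (cgraph J).support := (cgraph J).induce (cgraph J).support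

/-- `H` is an `n`-fold lift (covering graph) of `G`: some map of the vertices maps the neighbours of
every vertex bijectively onto the neighbours of its image, and every vertex of `G` has exactly `n`
preimages. -/
def IsLift {V W : Type} (n : ℕ) (H : SimpleGraph W) (G : SimpleGraph V) : Prop :=
  ∃ φ : W → V, (∀ w, Set.BijOn φ (H.neighborSet w) (G.neighborSet (φ w))) ∧
    ∀ v, Nat.card {w // φ w = v} = n

/-! ### Sides -/

/-- Left or right end of an edge. -/
def kk (s : Bool) : Edge → ℕ := match s with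
  | false => kL
  | true => kR

/-- Component of a pair. -/
def co {α : Type} (s : Bool) (p : α × α) : α := match s with
  | false => p.1
  | true => p.2

/-- A vertex. -/
def mk (s : Bool) (n : ℕ) : ℕ ⊕ ℕ := match s with
  | false => Sum.inl n
  | true => Sum.inr n

theorem mk_inj {s s' : Bool} {n n' : ℕ} (h : mk s n = mk s' n') : s = s' ∧ n = n' := by
  cases s <;> cases s' <;> simp [mk] at h <;> exact ⟨rfl, h⟩

theorem exists_mk (w : ℕ ⊕ ℕ) : ∃ s n, w = mk s n := by
  cases w with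
  | inl n => exact ⟨false, n, rfl⟩
  | inr n => exact ⟨true, n, rfl⟩

/-- The name of a vertex. -/
def nm (w : ℕ ⊕ ℕ) : ℕ := match w with
  | Sum.inl n => n
  | Sum.inr n => n

theorem nm_mk (s : Bool) (n : ℕ) : nm (mk s n) = n := by cases s <;> rfl

variable {t : ℕ} {B : Wd t × Wd t → Finset (ℕ × ℕ)} {I : Game}

theorem adj_mk (s : Bool) (n : ℕ) (w : ℕ ⊕ ℕ) : (cgraph (Psi B I)).Adj (mk s n) w ↔
    ∃ c, ∃ xy ∈ B c, ∃ p : Fin I.length, n = vt (kk s) I (co s c) (co s xy) (I[p], (p : ℕ)) ∧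
      w = mk (!s) (vt (kk (!s)) I (co (!s) c) (co (!s) xy) (I[p], (p : ℕ))) := by
  have key : ∀ a b, (a, b) ∈ (Psi B I).map Prod.fst ↔ ∃ c, ∃ xy ∈ B c, ∃ p : Fin I.length,
      a = vt kL I c.1 xy.1 (I[p], (p : ℕ)) ∧ b = vt kR I c.2 xy.2 (I[p], (p : ℕ)) := by
    intro a b
    rw [List.mem_map]
    constructor
    · rintro ⟨e, he, hab⟩
      obtain ⟨c, xy, hxy, p, rfl⟩ := mem_Psi.1 he
      exact ⟨c, xy, hxy, p, (congrArg Prod.fst hab).symm, (congrArg Prod.snd hab).symm⟩
    · rintro ⟨c, xy, hxy, p, rfl, rfl⟩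
      exact ⟨_, mem_Psi.2 ⟨c, xy, hxy, p, rfl⟩, rfl⟩
  cases s with
  | false =>
    cases w with
    | inl m =>
      constructor
      · intro h; exact h.elim
      · rintro ⟨c, xy, _, p, _, h⟩
        simp [mk] at h
    | inr m =>
      show (n, m) ∈ (Psi B I).map Prod.fst ↔ _
      rw [key]
      constructor
      · rintro ⟨c, xy, hxy, p, h1, h2⟩
        exact ⟨c, xy, hxy, p, h1, congrArg Sum.inr h2⟩
      · rintro ⟨c, xy, hxy, p, h1, h2⟩
        exact ⟨c, xy, hxy, p, h1, Sum.inr_injective h2⟩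
  | true =>
    cases w with
    | inr m =>
      constructor
      · intro h; exact h.elim
      · rintro ⟨c, xy, _, p, _, h⟩
        simp [mk] at h
    | inl m =>
      show (m, n) ∈ (Psi B I).map Prod.fst ↔ _
      rw [key]
      constructor
      · rintro ⟨c, xy, hxy, p, h1, h2⟩
        exact ⟨c, xy, hxy, p, h2, congrArg Sum.inl h1⟩
      · rintro ⟨c, xy, hxy, p, h1, h2⟩
        exact ⟨c, xy, hxy, p, Sum.inl_injective h2, h1⟩

/-- The sets `B c` are a partition of the set of the ordered pairs of adjacent vertices of `G`,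
whose vertices are named by `e`. -/
structure Parts {V : Type} (G : SimpleGraph V) (e : V → ℕ)
    (B : Wd t × Wd t → Finset (ℕ × ℕ)) : Prop where
  inj : Function.Injective e
  mem : ∀ c, ∀ xy ∈ B c, ∃ a b, G.Adj a b ∧ xy = (e a, e b)
  ex : ∀ a b, G.Adj a b → ∃ c, (e a, e b) ∈ B c
  disj : ∀ c c' p, p ∈ B c → p ∈ B c' → c = c'

section
variable {V : Type} {G : SimpleGraph V} {e : V → ℕ}

theorem Parts.adj (hB : Parts G e B) {c : Wd t × Wd t} {xy : ℕ × ℕ} (hxy : xy ∈ B c) {s : Bool}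
    {a b : V} (ha : e a = co s xy) (hb : e b = co (!s) xy) : G.Adj a b := by
  obtain ⟨a', b', hab, rfl⟩ := hB.mem c xy hxy
  cases s with
  | false =>
    have h1 : a = a' := hB.inj ha
    have h2 : b = b' := hB.inj hb
    rw [h1, h2]
    exact hab
  | true =>
    have h1 : a = b' := hB.inj ha
    have h2 : b = a' := hB.inj hb
    rw [h1, h2]
    exact hab.symm

theorem Parts.exists_pair (hB : Parts G e B) (s : Bool) {a b : V} (hab : G.Adj a b) :
    ∃ c, ∃ xy ∈ B c, co s xy = e a ∧ co (!s) xy = e b := by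
  cases s with
  | false =>
    obtain ⟨c, hc⟩ := hB.ex a b hab
    exact ⟨c, _, hc, rfl, rfl⟩
  | true =>
    obtain ⟨c, hc⟩ := hB.ex b a hab.symm
    exact ⟨c, _, hc, rfl, rfl⟩

theorem co_ext {α : Type} (s : Bool) {p p' : α × α} (h : co s p = co s p')
    (h' : co (!s) p = co (!s) p') : p = p' := by
  cases s with
  | false => exact Prod.ext h h'
  | true => exact Prod.ext h' h

theorem Parts.exists_name (hB : Parts G e B) {w : ℕ ⊕ ℕ} (hw : w ∈ (cgraph (Psi B I)).support) :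
    ∃ a : V, e a = (Nat.unpair (nm w)).2 := by
  obtain ⟨s, n, rfl⟩ := exists_mk w
  obtain ⟨w', h⟩ := hw
  obtain ⟨c, xy, hxy, p, hn, _⟩ := (adj_mk s n w').1 h
  obtain ⟨a, b, _, rfl⟩ := hB.mem c xy hxy
  rw [nm_mk, hn, unpair_vt]
  cases s with
  | false => exact ⟨a, rfl⟩
  | true => exact ⟨b, rfl⟩

/-- The constraint graph of the new game is a lift of `G`, and the image of a vertex can be read off
its name. -/
theorem lift_Psi_named (hB : Parts G e B) (hG : ∀ a, ∃ b, G.Adj a b) (hL : SqDeg kL I)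
    (hR : SqDeg kR I) : ∃ φ : (cgraph (Psi B I)).support → V,
      (∀ w, e (φ w) = (Nat.unpair (nm w)).2) ∧
      (∀ w, Set.BijOn φ ((graphOf (Psi B I)).neighborSet w) (G.neighborSet (φ w))) ∧
      ∀ v, Nat.card {w // φ w = v} = 2 * I.length := by
  classical
  have hsq : ∀ s, SqDeg (kk s) I := fun s => by cases s <;> assumption
  choose φ hφ using fun w : (cgraph (Psi B I)).support => hB.exists_name w.2
  have hmem : ∀ (s : Bool) (n : ℕ) (hw : mk s n ∈ (cgraph (Psi B I)).support),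
      ∃ (w : Wd t) (p : Fin I.length), n = vt (kk s) I w (e (φ ⟨_, hw⟩)) (I[p], (p : ℕ)) := by
    intro s n hw
    have h1 := hφ ⟨_, hw⟩
    obtain ⟨w', h⟩ := hw
    obtain ⟨c, xy, hxy, p, hn, _⟩ := (adj_mk s n w').1 h
    refine ⟨co s c, p, ?_⟩
    rw [h1, nm_mk]
    have h2 : (Nat.unpair n).2 = co s xy := by rw [hn, unpair_vt]
    rw [h2]
    exact hn
  refine ⟨φ, hφ, fun w => ?_, fun v => ?_⟩
  · obtain ⟨w, hw⟩ := w
    obtain ⟨s, n, rfl⟩ := exists_mk w
    obtain ⟨w0, p0, hn0⟩ := hmem s n hw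
    have hφw := hφ ⟨_, hw⟩
    rw [nm_mk] at hφw
    refine ⟨?_, ?_, ?_⟩
    · rintro ⟨w', hw'⟩ hadj
      have hadj' : (cgraph (Psi B I)).Adj (mk s n) w' := hadj
      obtain ⟨c, xy, hxy, p, hn, rfl⟩ := (adj_mk s n w').1 hadj'
      have h1 := hφ ⟨_, hw'⟩
      rw [nm_mk, unpair_vt] at h1
      have h2 : (Nat.unpair n).2 = co s xy := by rw [hn, unpair_vt]
      exact hB.adj hxy (hφw.trans h2) h1
    · rintro ⟨w1, hw1⟩ h1 ⟨w2, hw2⟩ h2 heq
      have h1' : (cgraph (Psi B I)).Adj (mk s n) w1 := h1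
      have h2' : (cgraph (Psi B I)).Adj (mk s n) w2 := h2
      obtain ⟨c1, xy1, hxy1, p1, hn1, rfl⟩ := (adj_mk s n w1).1 h1'
      obtain ⟨c2, xy2, hxy2, p2, hn2, rfl⟩ := (adj_mk s n w2).1 h2'
      have g1 := hφ ⟨_, hw1⟩
      have g2 := hφ ⟨_, hw2⟩
      rw [nm_mk, unpair_vt] at g1 g2
      rw [heq, g2] at g1
      have g3 : co s xy1 = co s xy2 := by
        have e1 := congrArg (fun n => (Nat.unpair n).2) (hn1.symm.trans hn2)
        beta_reduce at e1
        rwa [unpair_vt, unpair_vt] at e1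
      have g4 : xy1 = xy2 := co_ext s g3 g1.symm
      subst g4
      have g5 := hB.disj c1 c2 _ hxy1 hxy2
      subst g5
      have g6 := (vt_inj (hsq s) (hn1.symm.trans hn2)).1
      subst g6
      rfl
    · intro b hb
      have hb' : G.Adj (φ ⟨_, hw⟩) b := hb
      obtain ⟨c, xy, hxy, h1, h2⟩ := hB.exists_pair s hb'
      obtain ⟨p', hp'⟩ := vt_surj (hsq s) w0 (co s c) (e (φ ⟨_, hw⟩)) p0
      have hadj : (cgraph (Psi B I)).Adj (mk s n)
          (mk (!s) (vt (kk (!s)) I (co (!s) c) (co (!s) xy) (I[p'], (p' : ℕ)))) := by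
        refine (adj_mk s n _).2 ⟨c, xy, hxy, p', ?_, rfl⟩
        rw [h1, hp']
        exact hn0
      have hsup : mk (!s) (vt (kk (!s)) I (co (!s) c) (co (!s) xy) (I[p'], (p' : ℕ))) ∈
          (cgraph (Psi B I)).support := ⟨_, hadj.symm⟩
      refine ⟨⟨_, hsup⟩, hadj, ?_⟩
      apply hB.inj
      rw [hφ, nm_mk, unpair_vt, h2]
  · -- the fibres
    have w0 : Wd t := fun _ => 0
    have hsup : ∀ (s : Bool) (p : Fin I.length),
        mk s (vt (kk s) I w0 (e v) (I[p], (p : ℕ))) ∈ (cgraph (Psi B I)).support := by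
      intro s p
      obtain ⟨b, hb⟩ := hG v
      obtain ⟨c, xy, hxy, h1, h2⟩ := hB.exists_pair s hb
      obtain ⟨p', hp'⟩ := vt_surj (hsq s) w0 (co s c) (e v) p
      refine ⟨mk (!s) (vt (kk (!s)) I (co (!s) c) (co (!s) xy) (I[p'], (p' : ℕ))), ?_⟩
      refine (adj_mk s _ _).2 ⟨c, xy, hxy, p', ?_, rfl⟩
      rw [h1, hp']
    have hval : ∀ (s : Bool) (p : Fin I.length), φ ⟨_, hsup s p⟩ = v := by
      intro s p
      apply hB.inj
      rw [hφ, nm_mk, unpair_vt]
    have hbij : Function.Bijective (fun sp : Bool × Fin I.length =>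
        (⟨⟨_, hsup sp.1 sp.2⟩, hval sp.1 sp.2⟩ :
          {w : (cgraph (Psi B I)).support // φ w = v})) := by
      constructor
      · rintro ⟨s, p⟩ ⟨s', p'⟩ h
        have h1 := congrArg (fun x : {w : (cgraph (Psi B I)).support // φ w = v} =>
          (x.1 : ℕ ⊕ ℕ)) h
        beta_reduce at h1
        obtain ⟨h2, h3⟩ := mk_inj h1
        dsimp only at h2
        subst h2
        have h4 : p = p' := (vt_inj (hsq s) h3).1
        rw [h4]
      · rintro ⟨⟨w, hw⟩, hφw⟩
        obtain ⟨s, n, rfl⟩ := exists_mk w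
        obtain ⟨w1, p1, hn1⟩ := hmem s n hw
        rw [hφw] at hn1
        obtain ⟨p', hp'⟩ := vt_surj (hsq s) w1 w0 (e v) p1
        refine ⟨(s, p'), ?_⟩
        apply Subtype.ext
        apply Subtype.ext
        show mk s (vt (kk s) I w0 (e v) (I[p'], (p' : ℕ))) = mk s n
        rw [hp', ← hn1]
    rw [← Nat.card_congr (Equiv.ofBijective _ hbij), Nat.card_prod, Nat.card_eq_fintype_card,
      Nat.card_eq_fintype_card, Fintype.card_bool, Fintype.card_fin]

/-- The constraint graph of the new game is a lift of `G`. -/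
theorem lift_Psi (hB : Parts G e B) (hG : ∀ a, ∃ b, G.Adj a b) (hL : SqDeg kL I)
    (hR : SqDeg kR I) : IsLift (2 * I.length) (graphOf (Psi B I)) G := by
  obtain ⟨φ, _, h1, h2⟩ := lift_Psi_named hB hG hL hR
  exact ⟨φ, h1, h2⟩

end

end Pool.Agent.H697.LF
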