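import Pool.Agent.H697.LF.Psi

/-!
# The value of the new game
-/

namespace Pool.Agent.H697.LF

open Finset Pool.Agent.NPC Pool.Agent.H697.Exp Pool.Agent.H697.UG Pool.Agent.H697.Red

variable {t q : ℕ} {B : Wd t × Wd t → Finset (ℕ × ℕ)} {I : Game}

theorem complete_Psi (B : Wd t × Wd t → Finset (ℕ × ℕ)) (I : Game)
    (L M : ℕ → Fin q) : ∃ L' M' : ℕ → Fin q,
      numSat (Psi B I) L' M' = (∑ c, (B c).card) * numSat I L M := by
  refine ⟨fun n => L (Nat.unpair (Nat.unpair n).1).1, fun n => M (Nat.unpair (Nat.unpair n).1).1,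
    ?_⟩
  unfold numSat
  rw [filter_Psi]
  have h1 : ∀ (c : Wd t × Wd t) (xy : ℕ × ℕ), (univ.filter fun p : Fin I.length =>
      decide (Sat (fun n => L (Nat.unpair (Nat.unpair n).1).1)
        (fun n => M (Nat.unpair (Nat.unpair n).1).1) (ot I c xy (I[p], (p : ℕ)))) = true).card =
      numSat I L M := by
    intro c xy
    rw [numSat_eq]
    congr 1
    ext p
    simp only [mem_filter, mem_univ, true_and, decide_eq_true_eq]
    unfold Sat ot
    dsimp only
    rw [unpair_vt_key, unpair_vt_key]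
    rfl
  simp only [h1, sum_const, smul_eq_mul, ← sum_mul]
  rfl

/-- All rectangles are split evenly among the classes. -/
structure Even (t : ℕ) (η : ℝ) (N : ℕ) (E : Finset (ℕ × ℕ))
    (B : Wd t × Wd t → Finset (ℕ × ℕ)) : Prop where
  pos : 0 ≤ η
  sub : ∀ c, B c ⊆ E
  card : ∑ c, (B c).card = E.card
  lt : ∀ xy ∈ E, xy.1 < N ∧ xy.2 < N
  disc : ∀ c, ∀ S ⊆ range N, ∀ T ⊆ range N,
    (((B c).filter fun xy => xy.1 ∈ S ∧ xy.2 ∈ T).card : ℝ) ≤
      ((E.filter fun xy => xy.1 ∈ S ∧ xy.2 ∈ T).card : ℝ) / (8 ^ t) ^ 2 + η * E.card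

/-- The indicator function of a label. -/
def ind (L : ℕ → Fin q) (x : ℕ) (m : ℕ → ℕ) (u : ℕ) (a : Fin q)
    (z : ZMod (m u) × ZMod (m u)) : ℝ := if L (code u z x) = a then 1 else 0

theorem ind_nonneg (L : ℕ → Fin q) (x : ℕ) (m : ℕ → ℕ) (u : ℕ) (a : Fin q)
    (z : ZMod (m u) × ZMod (m u)) : 0 ≤ ind L x m u a z := by
  unfold ind; split_ifs <;> norm_num

theorem ind_sum (L : ℕ → Fin q) (x : ℕ) (m : ℕ → ℕ) (u : ℕ)
    (z : ZMod (m u) × ZMod (m u)) : ∑ a, ind L x m u a z = 1 := by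
  unfold ind
  rw [sum_ite_eq, if_pos (mem_univ _)]

variable {η : ℝ} {N : ℕ} {E : Finset (ℕ × ℕ)}

/-- The term of a pair, a class and a position. -/
noncomputable def term (I : Game) (L M : ℕ → Fin q) (c : Wd t × Wd t) (p : Fin I.length)
    (xy : ℕ × ℕ) : ℝ := ∑ a, ∑ a', Rel I q p a a' *
      ind L xy.1 (sd kL I) (kL I[p]) a
        (act c.1 (pos (sd kL I (kL I[p])) (degK kL (I.take p) (kL I[p])))) *
      ind M xy.2 (sd kR I) (kR I[p]) a'
        (act c.2 (pos (sd kR I (kR I[p])) (degK kR (I.take p) (kR I[p]))))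

theorem sound_local (hB : Even t η N E B) (L M : ℕ → Fin q) (c : Wd t × Wd t)
    (p : Fin I.length) :
    (((B c).filter fun xy => Sat L M (ot I c xy (I[p], (p : ℕ)))).card : ℝ) ≤
      (∑ xy ∈ E, term I L M c p xy) / (8 ^ t) ^ 2 + q * (η * E.card) := by
  set z := act c.1 (pos (sd kL I (kL I[p])) (degK kL (I.take p) (kL I[p]))) with hz
  set z' := act c.2 (pos (sd kR I (kR I[p])) (degK kR (I.take p) (kR I[p]))) with hz'
  set A : Fin q → Finset ℕ := fun a => (range N).filter fun x => L (code (kL I[p]) z x) = a with hA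
  set A' : Fin q → Finset ℕ := fun a => (range N).filter fun x => M (code (kR I[p]) z' x) = a
    with hA'
  have h1 : (((B c).filter fun xy => Sat L M (ot I c xy (I[p], (p : ℕ)))).card : ℝ) ≤
      ∑ a, ∑ a', Rel I q p a a' * (((B c).filter fun xy => xy.1 ∈ A a ∧ xy.2 ∈ A' a').card : ℝ) := by
    rw [card_filter]
    push_cast
    have h2 : ∀ xy ∈ B c, (if Sat L M (ot I c xy (I[p], (p : ℕ))) then (1 : ℝ) else 0) ≤
        ∑ a, ∑ a', Rel I q p a a' * (if xy.1 ∈ A a ∧ xy.2 ∈ A' a' then (1 : ℝ) else 0) := by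
      intro xy hxy
      split_ifs with hs
      · have hmem : xy.1 ∈ A (L (code (kL I[p]) z xy.1)) ∧ xy.2 ∈ A' (M (code (kR I[p]) z' xy.2)) := by
          have := hB.lt xy (hB.sub c hxy)
          exact ⟨mem_filter.2 ⟨mem_range.2 this.1, rfl⟩, mem_filter.2 ⟨mem_range.2 this.2, rfl⟩⟩
        have hrel : Rel I q p (L (code (kL I[p]) z xy.1)) (M (code (kR I[p]) z' xy.2)) = 1 := by
          unfold Red.Rel
          rw [if_pos]
          exact hs
        calc (1 : ℝ) = Rel I q p (L (code (kL I[p]) z xy.1)) (M (code (kR I[p]) z' xy.2)) *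
              (if xy.1 ∈ A (L (code (kL I[p]) z xy.1)) ∧ xy.2 ∈ A' (M (code (kR I[p]) z' xy.2))
                then (1 : ℝ) else 0) := by rw [if_pos hmem, hrel, one_mul]
          _ ≤ ∑ a', Rel I q p (L (code (kL I[p]) z xy.1)) a' *
              (if xy.1 ∈ A (L (code (kL I[p]) z xy.1)) ∧ xy.2 ∈ A' a' then (1 : ℝ) else 0) :=
              single_le_sum (f := fun a' => Rel I q p (L (code (kL I[p]) z xy.1)) a' *
              (if xy.1 ∈ A (L (code (kL I[p]) z xy.1)) ∧ xy.2 ∈ A' a' then (1 : ℝ) else 0))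
              (fun a' _ => mul_nonneg (Rel_nonneg _ _ _) (by split_ifs <;> norm_num)) (mem_univ _)
          _ ≤ _ := single_le_sum (f := fun a => ∑ a', Rel I q p a a' *
              (if xy.1 ∈ A a ∧ xy.2 ∈ A' a' then (1 : ℝ) else 0))
              (fun a _ => sum_nonneg fun a' _ => mul_nonneg (Rel_nonneg _ _ _)
                (by split_ifs <;> norm_num)) (mem_univ _)
      · exact sum_nonneg fun a _ => sum_nonneg fun a' _ => mul_nonneg (Rel_nonneg _ _ _)
          (by split_ifs <;> norm_num)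
    refine (sum_le_sum h2).trans (le_of_eq ?_)
    rw [sum_comm]
    refine sum_congr rfl fun a _ => ?_
    rw [sum_comm]
    refine sum_congr rfl fun a' _ => ?_
    rw [← mul_sum, card_filter]
    push_cast
    rfl
  refine h1.trans ?_
  have hE0 : 0 ≤ η * E.card := mul_nonneg hB.pos (by positivity)
  have h3 : ∀ a a' : Fin q, Rel I q p a a' *
      (((B c).filter fun xy => xy.1 ∈ A a ∧ xy.2 ∈ A' a').card : ℝ) ≤
      Rel I q p a a' * ((E.filter fun xy => xy.1 ∈ A a ∧ xy.2 ∈ A' a').card : ℝ) / (8 ^ t) ^ 2 +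
      Rel I q p a a' * (η * E.card) := by
    intro a a'
    have h4 := hB.disc c (A a) (filter_subset _ _) (A' a') (filter_subset _ _)
    refine (mul_le_mul_of_nonneg_left h4 (Rel_nonneg p a a')).trans (le_of_eq ?_)
    ring
  refine (sum_le_sum fun a _ => sum_le_sum fun a' _ => h3 a a').trans ?_
  simp only [sum_add_distrib, ← sum_mul, ← sum_div]
  refine add_le_add (div_le_div_of_nonneg_right (le_of_eq ?_) (by positivity)) ?_
  · unfold term
    rw [sum_comm' (s := E) (t := fun _ => univ) (t' := univ) (s' := fun _ => E) (by simp)]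
    refine sum_congr rfl fun a _ => ?_
    rw [sum_comm' (s := E) (t := fun _ => univ) (t' := univ) (s' := fun _ => E) (by simp)]
    refine sum_congr rfl fun a' _ => ?_
    rw [card_filter]
    push_cast
    rw [mul_sum]
    refine sum_congr rfl fun xy hxy => ?_
    rw [mul_assoc]
    congr 1
    have h5 := hB.lt xy hxy
    have h6 : xy.1 ∈ A a ↔ L (code (kL I[p]) z xy.1) = a := by
      simp only [hA, mem_filter, mem_range, h5.1, true_and]
    have h7 : xy.2 ∈ A' a' ↔ M (code (kR I[p]) z' xy.2) = a' := by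
      simp only [hA', mem_filter, mem_range, h5.2, true_and]
    unfold ind
    simp only [h6, h7]
    by_cases g1 : L (code (kL I[p]) z xy.1) = a
    · by_cases g2 : M (code (kR I[p]) z' xy.2) = a'
      · rw [if_pos ⟨g1, g2⟩, if_pos g1, if_pos g2, one_mul]
      · rw [if_neg (fun h => g2 h.2), if_neg g2, mul_zero]
    · rw [if_neg (fun h => g1 h.1), if_neg g1, zero_mul]
  · refine mul_le_mul_of_nonneg_right ?_ hE0
    refine (sum_le_sum fun a _ => Rel_sum p a).trans (le_of_eq ?_)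
    simp

theorem numSat_Psi (L M : ℕ → Fin q) : (numSat (Psi B I) L M : ℝ) =
    ∑ p : Fin I.length, ∑ c,
      (((B c).filter fun xy => Sat L M (ot I c xy (I[p], (p : ℕ)))).card : ℝ) := by
  have h1 : numSat (Psi B I) L M = ∑ p : Fin I.length, ∑ c,
      ((B c).filter fun xy => Sat L M (ot I c xy (I[p], (p : ℕ)))).card := by
    unfold numSat
    rw [filter_Psi]
    simp only [card_filter, decide_eq_true_eq]
    refine (sum_congr rfl fun c _ => sum_comm).trans ?_
    exact sum_comm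
  rw [h1]
  push_cast
  rfl

theorem sum_side_eq {k : Edge → ℕ} (hsq : SqDeg k I) :
    ∑ u ∈ univ.image (fun p : Fin I.length => k I[p]), ((sd k I u : ℕ) : ℝ) ^ 2 = I.length := by
  have h1 : ∑ u ∈ univ.image (fun p : Fin I.length => k I[p]), (sd k I u) ^ 2 = I.length := by
    conv_rhs => rw [← sum_deg k I]
    refine sum_congr rfl fun u hu => ?_
    obtain ⟨p, _, rfl⟩ := mem_image.1 hu
    exact hsq _ (degK_self_ne k I p)
  exact_mod_cast h1

/-- The sum of the terms of a pair. -/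
theorem sum_term_le (hq : 0 < q) (hL : SqDeg kL I) (hR : SqDeg kR I) {δ : ℝ}
    (hδ : ∀ L M : ℕ → Fin q, (numSat I L M : ℝ) ≤ δ * I.length) (L M : ℕ → Fin q)
    (xy : ℕ × ℕ) : ∑ p : Fin I.length, ∑ c : Wd t × Wd t, term I L M c p xy ≤
      (8 ^ t) ^ 2 * (I.length * (δ + (73 / 80) ^ t * (q + 2))) := by
  have hm : ∀ k : Edge → ℕ, SqDeg k I → ∑ u ∈ univ.image (fun p : Fin I.length => k I[p]),
      ((sd k I u : ℕ) : ℝ) ^ 2 ≤ 2 * ((1 : ℕ) * Fintype.card (Fin I.length)) := by
    intro k hk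
    rw [sum_side_eq hk, Fintype.card_fin]
    have h3 : (0 : ℝ) ≤ I.length := by positivity
    push_cast
    linarith
  have hcore := core hq (fun p : Fin I.length => kL I[p]) (fun p : Fin I.length => kR I[p])
    (Rel I q) Rel_nonneg Rel_le Rel_sum (slotsP hL) (slotsP hR) (hm kL hL) (hm kR hR)
    (ind L xy.1 (sd kL I)) (ind_nonneg L xy.1 (sd kL I)) (ind_sum L xy.1 (sd kL I))
    (ind M xy.2 (sd kR I)) (ind_nonneg M xy.2 (sd kR I)) (ind_sum M xy.2 (sd kR I))
    t (V := δ * I.length) (by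
      intro L' M'
      refine le_trans (le_of_eq ?_) (hδ L' M')
      rw [numSat_eq, card_filter]
      push_cast
      rfl)
  rw [Fintype.card_fin] at hcore
  have h1 : ∀ p : Fin I.length, ∑ c : Wd t × Wd t, term I L M c p xy =
      (8 ^ t) ^ 2 * ∑ i ∈ range 1, ∑ a, ∑ a', Rel I q p a a' *
        avg t (ind L xy.1 (sd kL I) (kL I[p]) a)
          (pos (sd kL I (kL I[p])) (degK kL (I.take p) (kL I[p]))) *
        avg t (ind M xy.2 (sd kR I) (kR I[p]) a')
          (pos (sd kR I (kR I[p])) (degK kR (I.take p) (kR I[p]))) := by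
    intro p
    unfold term
    rw [sum_range_one, sum_comm, mul_sum]
    refine sum_congr rfl fun a _ => ?_
    rw [sum_comm, mul_sum]
    refine sum_congr rfl fun a' _ => ?_
    rw [sum_pair (Rel I q p a a') (fun w => ind L xy.1 (sd kL I) (kL I[p]) a
        (act w (pos (sd kL I (kL I[p])) (degK kL (I.take p) (kL I[p])))))
      (fun w => ind M xy.2 (sd kR I) (kR I[p]) a'
        (act w (pos (sd kR I (kR I[p])) (degK kR (I.take p) (kR I[p]))))),
      sum_avg_eq, sum_avg_eq]
    ring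
  rw [sum_congr rfl fun p _ => h1 p, ← mul_sum]
  refine mul_le_mul_of_nonneg_left (hcore.trans (le_of_eq ?_)) (by positivity)
  push_cast
  ring

theorem sound_Psi (hB : Even t η N E B) (hq : 0 < q) (hL : SqDeg kL I) (hR : SqDeg kR I) {δ : ℝ}
    (hδ : ∀ L M : ℕ → Fin q, (numSat I L M : ℝ) ≤ δ * I.length) (L M : ℕ → Fin q) :
    (numSat (Psi B I) L M : ℝ) ≤ (Psi B I).length *
      (δ + (73 / 80) ^ t * (q + 2) + q * η * (8 ^ t) ^ 2) := by
  rw [numSat_Psi, length_Psi, hB.card]
  refine (sum_le_sum fun p _ => sum_le_sum fun c _ => sound_local hB L M c p).trans ?_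
  have h1 : ∑ p : Fin I.length, ∑ c : Wd t × Wd t,
      ((∑ xy ∈ E, term I L M c p xy) / (8 ^ t) ^ 2 + q * (η * E.card)) =
      (∑ xy ∈ E, ∑ p : Fin I.length, ∑ c : Wd t × Wd t, term I L M c p xy) / (8 ^ t) ^ 2 +
        I.length * ((8 ^ t) ^ 2 * (q * (η * E.card))) := by
    simp only [sum_add_distrib, ← sum_div, sum_const, card_univ, Fintype.card_fin,
      Fintype.card_prod, Fintype.card_fun, nsmul_eq_mul]
    congr 1
    · congr 1
      refine Eq.trans (sum_congr rfl fun p _ => sum_comm) ?_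
      exact sum_comm
    · push_cast
      ring
  rw [h1]
  have h2 : ∑ xy ∈ E, ∑ p : Fin I.length, ∑ c : Wd t × Wd t, term I L M c p xy ≤
      E.card * ((8 ^ t) ^ 2 * (I.length * (δ + (73 / 80) ^ t * (q + 2)))) := by
    refine (sum_le_sum fun xy _ => sum_term_le hq hL hR hδ L M xy).trans (le_of_eq ?_)
    rw [sum_const, nsmul_eq_mul]
  have h3 := div_le_div_of_nonneg_right h2 (show (0 : ℝ) ≤ (8 ^ t) ^ 2 by positivity)
  refine (add_le_add_left h3 _).trans (le_of_eq ?_)
  push_cast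
  field_simp

end Pool.Agent.H697.LF
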