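import Pool.Agent.H697.LF.Color
import Pool.Agent.H697.LF.Lift
import Pool.Agent.H697.LF.Value

/-!
# The reduction to games on lifts of a fixed graph
-/

namespace Pool.Agent.H697.LF

open Finset Pool.Agent.NPC Pool.Agent.H697.Exp Pool.Agent.H697.UG Pool.Agent.H697.Red
  Pool.Agent.H697.Forest

theorem exp_bound (M t : ℕ) (ht : 1 ≤ M ∨ 1 ≤ t) :
    (4 : ℝ) ^ M * (8 ^ t) ^ 2 < Real.exp (2 * M + 5 * t) := by
  have h1 : (2.7 : ℝ) < Real.exp 1 := by linarith [Real.exp_one_gt_d9]
  have h2 : (4 : ℝ) < Real.exp 2 := by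
    have : Real.exp 2 = Real.exp 1 ^ 2 := by rw [← Real.exp_nat_mul]; norm_num
    rw [this]
    nlinarith
  have h5 : (64 : ℝ) < Real.exp 5 := by
    have : Real.exp 5 = Real.exp 1 ^ 5 := by rw [← Real.exp_nat_mul]; norm_num
    rw [this]
    calc (64 : ℝ) < 2.7 ^ 5 := by norm_num
      _ ≤ Real.exp 1 ^ 5 := pow_le_pow_left₀ (by norm_num) h1.le 5
  have e1 : Real.exp (2 * M + 5 * t) = Real.exp 2 ^ M * Real.exp 5 ^ t := by
    rw [Real.exp_add, ← Real.exp_nat_mul, ← Real.exp_nat_mul, mul_comm (2 : ℝ), mul_comm (5 : ℝ)]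
  have e2 : ((8 : ℝ) ^ t) ^ 2 = 64 ^ t := by
    rw [← pow_mul, mul_comm, pow_mul]
    norm_num
  rw [e1, e2]
  rcases ht with h | h
  · calc (4 : ℝ) ^ M * 64 ^ t < Real.exp 2 ^ M * 64 ^ t := by
          apply mul_lt_mul_of_pos_right (pow_lt_pow_left₀ h2 (by norm_num) (by omega))
          positivity
      _ ≤ Real.exp 2 ^ M * Real.exp 5 ^ t :=
          mul_le_mul_of_nonneg_left (pow_le_pow_left₀ (by norm_num) h5.le t) (by positivity)
  · calc (4 : ℝ) ^ M * 64 ^ t ≤ Real.exp 2 ^ M * 64 ^ t := by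
          apply mul_le_mul_of_nonneg_right (pow_le_pow_left₀ (by norm_num) h2.le M)
          positivity
      _ < Real.exp 2 ^ M * Real.exp 5 ^ t := by
          apply mul_lt_mul_of_pos_left (pow_lt_pow_left₀ h5 (by norm_num) (by omega))
          positivity

/-- A partition of the pairs of adjacent vertices which splits all rectangles evenly. -/
theorem exists_parts {t : ℕ} (ht : 1 ≤ t) {η : ℝ} (h0 : 0 < η) (h1 : η ≤ 1) {d : ℕ}
    (hd : (2 + 5 * t : ℝ) ≤ η ^ 2 * d) (V : Type) [Finite V] (G : SimpleGraph V)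
    (hG : d * Nat.card V < G.edgeSet.ncard) :
    ∃ (e : V → ℕ) (N : ℕ) (E : Finset (ℕ × ℕ)) (B : Wd t × Wd t → Finset (ℕ × ℕ)),
      Parts G e B ∧ Even t η N E B ∧ 0 < E.card := by
  classical
  have := Fintype.ofFinite V
  set M := Fintype.card V with hM
  set e : V → ℕ := fun v => (Fintype.equivFin V v : ℕ) with he
  have hinj : Function.Injective e := fun a b h =>
    (Fintype.equivFin V).injective (Fin.ext h)
  have hlt : ∀ a, e a < M := fun a => (Fintype.equivFin V a).2
  set A : Finset (V × V) := univ.filter fun p => G.Adj p.1 p.2 with hA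
  set E : Finset (ℕ × ℕ) := A.image fun p => (e p.1, e p.2) with hE
  have hmemE : ∀ xy, xy ∈ E ↔ ∃ a b, G.Adj a b ∧ xy = (e a, e b) := by
    intro xy
    rw [hE, mem_image]
    constructor
    · rintro ⟨⟨a, b⟩, hab, rfl⟩
      exact ⟨a, b, (mem_filter.1 hab).2, rfl⟩
    · rintro ⟨a, b, hab, rfl⟩
      exact ⟨(a, b), mem_filter.2 ⟨mem_univ _, hab⟩, rfl⟩
  have hcardE : E.card = 2 * G.edgeSet.ncard := by
    have h2 : E.card = A.card := card_image_of_injective _ fun p p' h =>
      Prod.ext (hinj (congrArg Prod.fst h)) (hinj (congrArg Prod.snd h))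
    have h3 : A.card = ∑ v, G.degree v := by
      rw [hA, card_filter, Fintype.sum_prod_type]
      refine sum_congr rfl fun v _ => ?_
      rw [← card_filter, ← G.card_neighborFinset_eq_degree, SimpleGraph.neighborFinset_eq_filter]
    have h4 : G.edgeSet.ncard = G.edgeFinset.card := by
      rw [Set.ncard_eq_toFinset_card', SimpleGraph.edgeFinset]
    rw [h2, h3, G.sum_degrees_eq_twice_card_edges, h4]
  rw [Nat.card_eq_fintype_card] at hG
  have hG' : d * M < G.edgeSet.ncard := hG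
  have hEpos : 0 < E.card := by omega
  have hMpos : 1 ≤ M := by
    rcases Nat.eq_zero_or_pos M with h | h
    · exfalso
      obtain ⟨xy, hxy⟩ := card_pos.1 hEpos
      obtain ⟨a, _, _, _⟩ := (hmemE xy).1 hxy
      have := hlt a
      omega
    · exact h
  have hC : Fintype.card (Wd t × Wd t) = (8 ^ t) ^ 2 := by
    rw [Fintype.card_prod, Fintype.card_fun, Fintype.card_fin, Fintype.card_fin, sq]
  have hC2 : 2 ≤ Fintype.card (Wd t × Wd t) := by
    rw [hC]
    have h8 : 8 ^ 1 ≤ 8 ^ t := Nat.pow_le_pow_right (by norm_num) ht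
    nlinarith
  have hbig : (4 : ℝ) ^ M * Fintype.card (Wd t × Wd t) < Real.exp (η ^ 2 * E.card / 2) := by
    rw [hC]
    push_cast
    refine (exp_bound M t (Or.inl hMpos)).trans_le ?_
    rw [Real.exp_le_exp, hcardE]
    push_cast
    have h2 : ((d * M : ℕ) : ℝ) ≤ G.edgeSet.ncard := by exact_mod_cast hG'.le
    push_cast at h2
    have hM1 : (1 : ℝ) ≤ M := by exact_mod_cast hMpos
    have h3 : η ^ 2 * (d * M) ≤ η ^ 2 * G.edgeSet.ncard :=
      mul_le_mul_of_nonneg_left h2 (by positivity)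
    have h4 : (2 + 5 * t : ℝ) * M ≤ η ^ 2 * d * M := mul_le_mul_of_nonneg_right hd (by positivity)
    have h5 : (5 * t : ℝ) ≤ 5 * t * M := le_mul_of_one_le_right (by positivity) hM1
    nlinarith
  obtain ⟨col, hcol⟩ := exists_pair_col hC2 M E h0 h1 hbig
  refine ⟨e, M, E, fun c => E.filter fun xy => col xy = c, ⟨hinj, ?_, ?_, ?_⟩,
    ⟨h0.le, fun c => filter_subset _ _, ?_, ?_, ?_⟩, hEpos⟩
  · intro c xy hxy
    exact (hmemE xy).1 (mem_filter.1 hxy).1
  · intro a b hab
    exact ⟨col (e a, e b), mem_filter.2 ⟨(hmemE _).2 ⟨a, b, hab, rfl⟩, rfl⟩⟩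
  · intro c c' p h h'
    exact (mem_filter.1 h).2.symm.trans (mem_filter.1 h').2
  · rw [← card_eq_sum_card_fiberwise (f := col) (t := univ) fun x _ => mem_univ _]
  · intro xy hxy
    obtain ⟨a, b, _, rfl⟩ := (hmemE xy).1 hxy
    exact ⟨hlt a, hlt b⟩
  · intro c S hS T hT
    have h2 := hcol c S hS T hT
    rw [hC] at h2
    push_cast at h2
    have h3 : ((E.filter fun xy => col xy = c).filter fun xy => xy.1 ∈ S ∧ xy.2 ∈ T) =
        E.filter fun e => col e = c ∧ e.1 ∈ S ∧ e.2 ∈ T := by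
      rw [filter_filter]
    rw [h3]
    exact h2

/-- For every graph `G` without isolated vertices and with sufficiently many edges per vertex there
is a polynomial-time map which turns every game into a simple game whose constraint graph is a lift
of `G`, which keeps the tables, which does not decrease the value (much), and which does not
increase it to more than `δ'` if it is at most `δ`. -/
theorem exists_reduction_lift_named {q : ℕ} (hq : 0 < q) {κ δ δ' : ℝ} (hκ : 0 < κ)
    (h : δ < δ') :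
    ∃ d : ℕ, ∀ (V : Type) [Finite V] (G : SimpleGraph V), (∀ a, ∃ b, G.Adj a b) →
      d * Nat.card V < G.edgeSet.ncard →
    ∃ (name : V → ℕ) (F : Game → Game), Function.Injective name ∧ Poly F ∧
      (∀ T : ℕ × ℕ → ℕ, Poly (fun I => (F I).map fun e =>
        (e, T ((Nat.unpair e.1.1).2, (Nat.unpair e.1.2).2)))) ∧
      ∀ I, I ≠ [] → F I ≠ [] ∧ Simple (F I) ∧
      (∃ φ : (cgraph (F I)).support → V, (∀ w, name (φ w) = (Nat.unpair (nm w)).2) ∧
        (∀ w, Set.BijOn φ ((graphOf (F I)).neighborSet w) (G.neighborSet (φ w))) ∧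
        ∃ n, 0 < n ∧ ∀ v, Nat.card {w // φ w = v} = n) ∧
      (∀ e ∈ F I, ∃ e' ∈ I, e.2 = e'.2) ∧
      (∀ L M : ℕ → Fin q, (∀ e ∈ I, ∃ y : Fin q, e.2[(L e.1.1 : ℕ)]? = some (y : ℕ)) →
        ∃ L' M' : ℕ → Fin q, (numSat I L M : ℝ) * (F I).length ≤
          (1 + κ) * (numSat (F I) L' M' * I.length) ∧
          ((∀ e ∈ I, ∃ x : Fin q, e.2[(x : ℕ)]? = some (M e.1.2 : ℕ)) →
            numSat I L M * (F I).length ≤ numSat (F I) L' M' * I.length)) ∧
      ((∀ L M : ℕ → Fin q, (numSat I L M : ℝ) ≤ δ * I.length) →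
        ∀ L M : ℕ → Fin q, (numSat (F I) L M : ℝ) ≤ δ' * (F I).length) := by
  have hΔ : 0 < δ' - δ := by linarith
  have hqr : (0 : ℝ) < q := by exact_mod_cast hq
  obtain ⟨c, hc⟩ := exists_nat_gt (max (12 / (δ' - δ)) (4 / κ))
  have hc1 : 12 / (δ' - δ) < c := lt_of_le_of_lt (le_max_left _ _) hc
  have hc2 : 4 / κ < c := lt_of_le_of_lt (le_max_right _ _) hc
  have hc0 : (0 : ℝ) < c := lt_trans (by positivity) hc1
  have hcpos : 0 < c := by exact_mod_cast hc0
  have hc3 : 4 / (c : ℝ) ≤ (δ' - δ) / 3 := by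
    rw [div_lt_iff₀ hΔ] at hc1
    rw [div_le_div_iff₀ hc0 (by norm_num)]
    linarith
  have hc4 : 4 / (c : ℝ) ≤ κ := by
    rw [div_lt_iff₀ hκ] at hc2
    rw [div_le_iff₀ hc0]
    linarith
  obtain ⟨t', ht'⟩ := exists_pow_lt_of_lt_one (show (0 : ℝ) < (δ' - δ) / (3 * (q + 2)) by positivity)
    (show (73 / 80 : ℝ) < 1 by norm_num)
  set t := t' + 1 with ht
  have ht2 : (73 / 80 : ℝ) ^ t * (q + 2) ≤ (δ' - δ) / 3 := by
    have h3 : (0 : ℝ) < q + 2 := by positivity
    have h4 : (73 / 80 : ℝ) ^ t ≤ (73 / 80 : ℝ) ^ t' :=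
      pow_le_pow_of_le_one (by norm_num) (by norm_num) (Nat.le_succ _)
    calc (73 / 80 : ℝ) ^ t * (q + 2) ≤ (δ' - δ) / (3 * (q + 2)) * (q + 2) :=
          mul_le_mul_of_nonneg_right (h4.trans ht'.le) h3.le
      _ = (δ' - δ) / 3 := by field_simp
  have hW : (0 : ℝ) < ((8 : ℝ) ^ t) ^ 2 := by positivity
  set η : ℝ := min 1 ((δ' - δ) / (3 * q * (8 ^ t) ^ 2)) with hη
  have hη0 : 0 < η := lt_min one_pos (by positivity)
  have hη1 : η ≤ 1 := min_le_left _ _
  have hη2 : q * η * (8 ^ t) ^ 2 ≤ (δ' - δ) / 3 := by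
    have h3 : η ≤ (δ' - δ) / (3 * q * (8 ^ t) ^ 2) := min_le_right _ _
    calc q * η * (8 ^ t) ^ 2 ≤ q * ((δ' - δ) / (3 * q * (8 ^ t) ^ 2)) * (8 ^ t) ^ 2 := by gcongr
      _ = (δ' - δ) / 3 := by field_simp
  obtain ⟨d, hd⟩ := exists_nat_ge ((2 + 5 * t : ℝ) / η ^ 2)
  have hd' : (2 + 5 * t : ℝ) ≤ η ^ 2 * d := by
    rw [div_le_iff₀ (by positivity)] at hd
    linarith
  refine ⟨d, fun V _ G hG hcard => ?_⟩
  obtain ⟨e, N, E, B, hP, hB, hEpos⟩ := exists_parts (by omega) hη0 hη1 hd' V G hcard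
  set b := c * c with hb
  have hb0 : 0 < b := Nat.mul_pos hcpos hcpos
  refine ⟨e, fun I => Psi B (Sq b I), hP.inj, (poly_Psi B).comp (poly_Sq b),
    fun T => (poly_Psi_info B T).comp (poly_Sq b), fun I hI => ?_⟩
  have hI0 : 0 < I.length := List.length_pos_iff.2 hI
  have hIr : (0 : ℝ) < I.length := by exact_mod_cast hI0
  have hL := sqDeg_L b I
  have hR := sqDeg_R b I
  have hlenS := length_Sq b I
  have hpads := pads_le I (c := c) (b := b) le_rfl hb0
  set w := (padL b I).length + (padR b I).length with hw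
  have hS0 : 0 < (Sq b I).length := by
    rw [hlenS]
    have := Nat.mul_pos hb0 hI0
    omega
  have hlen : (Psi B (Sq b I)).length = E.card * (Sq b I).length := by
    rw [length_Psi, hB.card]
  have hlen0 : 0 < (Psi B (Sq b I)).length := by rw [hlen]; exact Nat.mul_pos hEpos hS0
  have hwr : (w : ℝ) ≤ 4 / c * (b * I.length) := by
    have h3 : (c : ℝ) * w ≤ 4 * (b * I.length) := by exact_mod_cast hpads
    rw [div_mul_eq_mul_div, le_div_iff₀ hc0]
    linarith
  obtain ⟨φ, hφ1, hφ2, hφ3⟩ := lift_Psi_named hP hG hL hR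
  refine ⟨List.length_pos_iff.1 hlen0, simple_Psi hL hP.disj, ⟨φ, hφ1, hφ2,
    2 * (Sq b I).length, by omega, hφ3⟩, ?_, ?_, ?_⟩
  · intro e he
    obtain ⟨e', he', h1⟩ := tables_Psi he
    obtain ⟨e'', he'', h2⟩ := tables_Sq he'
    exact ⟨e'', he'', h1.trans h2⟩
  · intro L M hl
    obtain ⟨L1, M1, h1, h2⟩ := complete_Sq hq b I L M fun ep hep => hl ep.1 (mem_firsts hep)
    obtain ⟨L2, M2, h3⟩ := complete_Psi B (Sq b I) L1 M1
    rw [hB.card] at h3
    refine ⟨L2, M2, ?_, fun hr => ?_⟩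
    · rw [h3, hlen, hlenS]
      push_cast
      have h4 : ((b : ℝ) * numSat I L M) ≤ numSat (Sq b I) L1 M1 := by
        have : b * numSat I L M ≤ numSat (Sq b I) L1 M1 := by omega
        exact_mod_cast this
      have h5 : (b : ℝ) * I.length + w ≤ (1 + κ) * (b * I.length) := by
        have h6 : 4 / (c : ℝ) * (b * I.length) ≤ κ * (b * I.length) :=
          mul_le_mul_of_nonneg_right hc4 (by positivity)
        linarith
      calc (numSat I L M : ℝ) * (E.card * (b * I.length + w))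
          ≤ numSat I L M * (E.card * ((1 + κ) * (b * I.length))) := by gcongr
        _ = (1 + κ) * (E.card * (b * numSat I L M) * I.length) := by ring
        _ ≤ (1 + κ) * (E.card * numSat (Sq b I) L1 M1 * I.length) := by gcongr
    · rw [h3, hlen, hlenS]
      have h4 := h2 fun ep hep => hr ep.1 (mem_firsts hep)
      have h5 : numSat I L M ≤ I.length := numSat_le_length I L M
      calc numSat I L M * (E.card * (b * I.length + w))
          = E.card * (b * numSat I L M * I.length + numSat I L M * w) := by ring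
        _ ≤ E.card * (b * numSat I L M * I.length + I.length * w) := by gcongr
        _ = E.card * (b * numSat I L M + w) * I.length := by ring
        _ ≤ E.card * numSat (Sq b I) L1 M1 * I.length := by gcongr
  · intro hno L M
    have hδ0 : 0 ≤ δ := by
      have h3 := hno (fun _ => ⟨0, hq⟩) (fun _ => ⟨0, hq⟩)
      have h4 : (0 : ℝ) ≤ numSat I (fun _ => (⟨0, hq⟩ : Fin q)) (fun _ => ⟨0, hq⟩) := by positivity
      by_contra hneg
      push Not at hneg
      have : δ * I.length < 0 := mul_neg_of_neg_of_pos hneg hIr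
      linarith
    have hS : ∀ L M : ℕ → Fin q, (numSat (Sq b I) L M : ℝ) ≤ (δ + 4 / c) * (Sq b I).length := by
      intro L M
      have h3 := sound_Sq b I L M
      have h4 : (numSat (Sq b I) L M : ℝ) ≤
          b * numSat I (fun u => L (2 * u)) (fun v => M (2 * v)) + w := by exact_mod_cast h3
      have h5 := hno (fun u => L (2 * u)) (fun v => M (2 * v))
      have h6 : (b : ℝ) * numSat I (fun u => L (2 * u)) (fun v => M (2 * v)) ≤
          b * (δ * I.length) := mul_le_mul_of_nonneg_left h5 (by positivity)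
      rw [hlenS]
      push_cast
      have h7 : 0 ≤ (δ + 4 / c) * (w : ℝ) := by positivity
      calc (numSat (Sq b I) L M : ℝ) ≤ b * (δ * I.length) + 4 / c * (b * I.length) := by linarith
        _ = (δ + 4 / c) * (b * I.length) := by ring
        _ ≤ _ := by linarith
    refine (sound_Psi hB hq hL hR hS L M).trans ?_
    rw [mul_comm]
    exact mul_le_mul_of_nonneg_right (by linarith) (by positivity)

/-- For every graph `G` without isolated vertices and with sufficiently many edges per vertex there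
is a polynomial-time map which turns every game into a simple game whose constraint graph is a lift
of `G`, which keeps the tables, which does not decrease the value (much), and which does not
increase it to more than `δ'` if it is at most `δ`. -/
theorem exists_reduction_lift {q : ℕ} (hq : 0 < q) {κ δ δ' : ℝ} (hκ : 0 < κ) (h : δ < δ') :
    ∃ d : ℕ, ∀ (V : Type) [Finite V] (G : SimpleGraph V), (∀ a, ∃ b, G.Adj a b) →
      d * Nat.card V < G.edgeSet.ncard →
    ∃ F : Game → Game, Poly F ∧ ∀ I, I ≠ [] → F I ≠ [] ∧ Simple (F I) ∧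
      (∃ n, 0 < n ∧ IsLift n (graphOf (F I)) G) ∧
      (∀ e ∈ F I, ∃ e' ∈ I, e.2 = e'.2) ∧
      (∀ L M : ℕ → Fin q, (∀ e ∈ I, ∃ y : Fin q, e.2[(L e.1.1 : ℕ)]? = some (y : ℕ)) →
        ∃ L' M' : ℕ → Fin q, (numSat I L M : ℝ) * (F I).length ≤
          (1 + κ) * (numSat (F I) L' M' * I.length) ∧
          ((∀ e ∈ I, ∃ x : Fin q, e.2[(x : ℕ)]? = some (M e.1.2 : ℕ)) →
            numSat I L M * (F I).length ≤ numSat (F I) L' M' * I.length)) ∧
      ((∀ L M : ℕ → Fin q, (numSat I L M : ℝ) ≤ δ * I.length) →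
        ∀ L M : ℕ → Fin q, (numSat (F I) L M : ℝ) ≤ δ' * (F I).length) := by
  obtain ⟨d, hd⟩ := exists_reduction_lift_named hq hκ h
  refine ⟨d, fun V _ G hG hc => ?_⟩
  obtain ⟨_, F, _, hF, _, hFI⟩ := hd V G hG hc
  refine ⟨F, hF, fun I hI => ?_⟩
  obtain ⟨h1, h2, ⟨φ, _, h3, n, hn, h4⟩, h5, h6, h7⟩ := hFI I hI
  exact ⟨h1, h2, ⟨n, hn, φ, h3, h4⟩, h5, h6, h7⟩

end Pool.Agent.H697.LF
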