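import Pool.Agent.H697.LF.SquareVal

/-!
# The lift of a coloured graph defined by a game: definition and cells
-/

namespace Pool.Agent.H697.LF

open Finset Pool.Agent.NPC Pool.Agent.H697.Exp Pool.Agent.H697.UG Pool.Agent.H697.Red

/-- The new vertex for the edge `ep.1` at position `ep.2`. -/
def vt (k : Edge → ℕ) {t : ℕ} (I : Game) (w : Wd t) (x : ℕ) (ep : Edge × ℕ) : ℕ :=
  code (k ep.1) (act w (pos (sd k I (k ep.1)) (degK k (I.take ep.2) (k ep.1)))) x

/-- The new edge. -/
def ot {t : ℕ} (I : Game) (c : Wd t × Wd t) (xy : ℕ × ℕ) (ep : Edge × ℕ) : Edge :=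
  ((vt kL I c.1 xy.1 ep, vt kR I c.2 xy.2 ep), ep.1.2)

/-- The new game. -/
noncomputable def Psi {t : ℕ} (B : Wd t × Wd t → Finset (ℕ × ℕ)) (I : Game) : Game :=
  (univ : Finset (Wd t × Wd t)).toList.flatMap fun c =>
    (B c).toList.flatMap fun xy => I.zipIdx.map fun ep => ot I c xy ep

variable {t : ℕ} {B : Wd t × Wd t → Finset (ℕ × ℕ)} {I : Game} {k : Edge → ℕ}

theorem filter_Psi (B : Wd t × Wd t → Finset (ℕ × ℕ)) (I : Game) (Q : Edge → Bool) :
    ((Psi B I).filter Q).length = ∑ c, ∑ xy ∈ B c,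
        (univ.filter fun p : Fin I.length => Q (ot I c xy (I[p], (p : ℕ))) = true).card := by
  unfold Psi
  simp only [List.filter_flatMap, List.length_flatMap]
  rw [Finset.sum_map_toList]
  refine sum_congr rfl fun c _ => ?_
  rw [Finset.sum_map_toList]
  refine sum_congr rfl fun xy _ => ?_
  exact filter_zipIdx I (fun ep => ot I c xy ep) Q

theorem length_Psi (B : Wd t × Wd t → Finset (ℕ × ℕ)) (I : Game) :
    (Psi B I).length = (∑ c, (B c).card) * I.length := by
  have h := filter_Psi B I fun _ => true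
  rw [List.filter_true] at h
  rw [h]
  simp only [filter_true, card_univ, Fintype.card_fin, sum_const, smul_eq_mul]
  rw [← sum_mul]

theorem mem_Psi {e : Edge} : e ∈ Psi B I ↔ ∃ c, ∃ xy ∈ B c, ∃ p : Fin I.length,
      e = ot I c xy (I[p], (p : ℕ)) := by
  unfold Psi
  simp only [List.mem_flatMap, mem_toList, mem_univ, true_and, List.mem_map]
  constructor
  · rintro ⟨c, xy, hxy, ⟨e', p⟩, hp, rfl⟩
    obtain ⟨h1, h2⟩ := List.mem_zipIdx' hp
    exact ⟨c, xy, hxy, ⟨p, h1⟩, by rw [h2]; rfl⟩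
  · rintro ⟨c, xy, hxy, p, rfl⟩
    refine ⟨c, xy, hxy, (I[p], (p : ℕ)), ?_, rfl⟩
    rw [List.mem_iff_getElem]
    exact ⟨p, by simp, by simp⟩

theorem lt_sd (hsq : SqDeg k I) (p : Fin I.length) :
    degK k (I.take p) (k I[p]) < sd k I (k I[p]) * sd k I (k I[p]) := by
  have h1 := degK_lt k I p
  have h2 := hsq _ (degK_self_ne k I p)
  rw [sq] at h2
  omega

theorem slotsP (hsq : SqDeg k I) : Slots (Fin I.length) 1 (fun p => k I[p]) (sd k I)
    (fun p _ => degK k (I.take p) (k I[p])) where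
  lt p i _ := lt_sd hsq p
  inj p p' i i' hk hi hi' h := ⟨rank_inj k I hk h, by omega⟩

theorem vt_inj (hsq : SqDeg k I) {w : Wd t} {x x' : ℕ} {p p' : Fin I.length}
    (h : vt k I w x (I[p], (p : ℕ)) = vt k I w x' (I[p'], (p' : ℕ))) : p = p' ∧ x = x' := by
  obtain ⟨h1, h2, h3⟩ := code_act_inj (sd k I) w (lt_sd hsq p) (lt_sd hsq p') h
  exact ⟨rank_inj k I h1 h2, h3⟩

theorem unpair_vt (w : Wd t) (x : ℕ) (ep : Edge × ℕ) : (Nat.unpair (vt k I w x ep)).2 = x := by
  unfold vt code
  rw [Nat.unpair_pair]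

theorem unpair_vt_key (w : Wd t) (x : ℕ) (ep : Edge × ℕ) :
    (Nat.unpair (Nat.unpair (vt k I w x ep)).1).1 = k ep.1 := by
  unfold vt code
  rw [Nat.unpair_pair, Nat.unpair_pair]

theorem pos_surj {m : ℕ} [NeZero m] (z : ZMod m × ZMod m) : ∃ j < m * m, pos m j = z := by
  refine ⟨z.1.val * m + z.2.val, ?_, ?_⟩
  · have h1 := ZMod.val_lt z.1
    have h2 := ZMod.val_lt z.2
    calc z.1.val * m + z.2.val < z.1.val * m + m := by omega
      _ = (z.1.val + 1) * m := by ring
      _ ≤ m * m := Nat.mul_le_mul_right _ h1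
  · have h2 := ZMod.val_lt z.2
    have hm : 0 < m := NeZero.pos m
    unfold pos
    apply Prod.ext
    · show (((z.1.val * m + z.2.val) / m : ℕ) : ZMod m) = z.1
      rw [mul_comm, Nat.mul_add_div hm, Nat.div_eq_of_lt h2, add_zero, ZMod.natCast_zmod_val]
    · show (((z.1.val * m + z.2.val) % m : ℕ) : ZMod m) = z.2
      rw [mul_comm, Nat.mul_add_mod, Nat.mod_eq_of_lt h2, ZMod.natCast_zmod_val]

/-- Every cell of a cloud belongs to an edge, for every word. -/
theorem vt_surj (hsq : SqDeg k I) (w w' : Wd t) (x : ℕ) (p : Fin I.length) :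
    ∃ p' : Fin I.length, vt k I w' x (I[p'], (p' : ℕ)) = vt k I w x (I[p], (p : ℕ)) := by
  set u := k I[p] with hu
  set z := act w (pos (sd k I u) (degK k (I.take p) u)) with hz
  obtain ⟨z', hz'⟩ := (Finite.injective_iff_surjective.1 (act_injective (n := sd k I u) w')) z
  obtain ⟨j, hj, hj'⟩ := pos_surj z'
  have h1 : j < degK k I u := by
    have h2 := hsq u (degK_self_ne k I p)
    rw [sq] at h2
    omega
  obtain ⟨p', h2, h3⟩ := exists_rank k I h1
  refine ⟨p', ?_⟩
  have h4 : vt k I w' x (I[p'], (p' : ℕ)) = code u (act w' (pos (sd k I u) j)) x := by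
    unfold vt
    dsimp only
    have h5 : degK k (I.take p') u = j := by rw [← h3, h2]
    rw [h2, h5]
  rw [h4, hj', hz']
  rfl

theorem simple_Psi (hL : SqDeg kL I) (hdisj : ∀ c c' p, p ∈ B c → p ∈ B c' → c = c') :
    Simple (Psi B I) := by
  unfold Simple
  rw [List.nodup_iff_count_le_one]
  intro a
  have h1 : ((Psi B I).map Prod.fst).count a =
      ((Psi B I).filter fun e => decide (e.1 = a)).length := by
    rw [List.count, List.countP_map, List.countP_eq_length_filter]
    congr 2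
    funext e
    simp only [Function.comp, beq_eq_decide]
  rw [h1, filter_Psi]
  have h2 : ∀ c ∈ (univ : Finset (Wd t × Wd t)), ∑ xy ∈ B c, (univ.filter fun p : Fin I.length =>
      decide ((ot I c xy (I[p], (p : ℕ))).1 = a) = true).card ≤
      if ((Nat.unpair a.1).2, (Nat.unpair a.2).2) ∈ B c then 1 else 0 := by
    intro c _
    have h3 : ∀ xy ∈ B c, (univ.filter fun p : Fin I.length =>
        decide ((ot I c xy (I[p], (p : ℕ))).1 = a) = true).card ≤
        if xy = ((Nat.unpair a.1).2, (Nat.unpair a.2).2) then 1 else 0 := by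
      intro xy _
      split_ifs with hxy
      · rw [card_le_one]
        intro p hp p' hp'
        have h4 := of_decide_eq_true (mem_filter.1 hp).2
        have h5 := of_decide_eq_true (mem_filter.1 hp').2
        exact (vt_inj hL (congrArg Prod.fst (h4.trans h5.symm))).1
      · rw [Nat.le_zero, card_eq_zero, filter_eq_empty_iff]
        intro p _ hp
        rw [decide_eq_true_eq] at hp
        apply hxy
        rw [← hp]
        show xy = ((Nat.unpair (vt kL I c.1 xy.1 (I[p], (p : ℕ)))).2,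
          (Nat.unpair (vt kR I c.2 xy.2 (I[p], (p : ℕ)))).2)
        rw [unpair_vt, unpair_vt]
    refine (sum_le_sum h3).trans ?_
    rw [sum_ite_eq']
  refine (sum_le_sum h2).trans ?_
  rw [← card_filter, card_le_one]
  intro c hc c' hc'
  exact hdisj c c' _ (mem_filter.1 hc).2 (mem_filter.1 hc').2

theorem tables_Psi {e : Edge} (he : e ∈ Psi B I) : ∃ e' ∈ I, e.2 = e'.2 := by
  obtain ⟨c, xy, _, p, rfl⟩ := mem_Psi.1 he
  exact ⟨I[p], List.getElem_mem _, rfl⟩

/-! ### Running time -/

theorem poly_vt {k : Edge → ℕ} (hk : Poly k) {t : ℕ} (w : Wd t) (x : ℕ) :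
    Poly (fun p : Game × (Edge × ℕ) => vt k p.1 w x p.2) := by
  have hI : Poly (fun p : Game × (Edge × ℕ) => p.1) := Poly.fst Poly.id
  have hu : Poly (fun p : Game × (Edge × ℕ) => k p.2.1) := hk.comp (Poly.fst (Poly.snd Poly.id))
  have hp : Poly (fun p : Game × (Edge × ℕ) => p.2.2) := Poly.snd (Poly.snd Poly.id)
  have hm : Poly (fun p : Game × (Edge × ℕ) => sd k p.1 (k p.2.1)) := by
    unfold sd
    exact poly_root (poly_degK hk hI hu) (UPoly.length hI) fun p => List.length_filter_le _ _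
  have hs : Poly (fun p : Game × (Edge × ℕ) => degK k (p.1.take p.2.2) (k p.2.1)) :=
    poly_degK_take hk hI hu hp
  obtain ⟨h1, h2⟩ := polyZ_act hm w (polyZ_pos hm hs)
  unfold vt code
  exact poly_pair (poly_pair hu (poly_pair h1 h2)) (NPC.Poly.const x)

theorem poly_Psi {t : ℕ} (B : Wd t × Wd t → Finset (ℕ × ℕ)) : Poly (Psi B) := by
  unfold Psi
  refine poly_flatMap_const _ _ fun c _ => poly_flatMap_const _ _ fun xy _ => ?_
  refine NPC.Poly.map (F := fun (I : Game) (ep : Edge × ℕ) => ot I c xy ep)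
    (Poly.zipIdx Poly.id) ?_
  unfold ot
  exact Poly.pair (Poly.pair (poly_vt poly_kL c.1 xy.1) (poly_vt poly_kR c.2 xy.2))
    (Poly.snd (Poly.fst (Poly.snd Poly.id)))

/-- The new game, with some information on every edge. -/
theorem poly_Psi_info {t : ℕ} (B : Wd t × Wd t → Finset (ℕ × ℕ)) (T : ℕ × ℕ → ℕ) :
    Poly (fun I : Game => (Psi B I).map fun e =>
      (e, T ((Nat.unpair e.1.1).2, (Nat.unpair e.1.2).2))) := by
  have h : Poly (fun I : Game => (univ : Finset (Wd t × Wd t)).toList.flatMap fun c =>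
      (B c).toList.flatMap fun xy => I.zipIdx.map fun ep => (ot I c xy ep, T xy)) := by
    refine poly_flatMap_const _ _ fun c _ => poly_flatMap_const _ _ fun xy _ => ?_
    refine NPC.Poly.map (F := fun (I : Game) (ep : Edge × ℕ) => (ot I c xy ep, T xy))
      (Poly.zipIdx Poly.id) (Poly.pair ?_ (NPC.Poly.const _))
    unfold ot
    exact Poly.pair (Poly.pair (poly_vt poly_kL c.1 xy.1) (poly_vt poly_kR c.2 xy.2))
      (Poly.snd (Poly.fst (Poly.snd Poly.id)))
  refine h.congr fun I => ?_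
  unfold Psi
  simp only [List.map_flatMap, List.map_map]
  refine List.flatMap_congr fun c _ => List.flatMap_congr fun xy _ => List.map_congr_left
    fun ep _ => ?_
  simp only [Function.comp]
  unfold ot
  simp only [unpair_vt]

end Pool.Agent.H697.LF
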