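import Pool.Agent.H697.Red.Main

/-!
# Making all degrees squares

All edges are repeated `b` times, and pendant edges to new vertices are added, such that the degrees
of the old vertices become squares.
-/

namespace Pool.Agent.H697.LF

open Finset Pool.Agent.NPC Pool.Agent.H697.Exp Pool.Agent.H697.UG Pool.Agent.H697.Red

/-- The root of the next square. -/
def root (X : ℕ) : ℕ := Nat.sqrt (X - 1) + 1

/-- The distance to the next square. -/
def extra (X : ℕ) : ℕ := root X ^ 2 - X

theorem extra_spec (X : ℕ) : X + extra X = root X ^ 2 := by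
  unfold extra
  have h1 : X - 1 < (Nat.sqrt (X - 1) + 1) * (Nat.sqrt (X - 1) + 1) := Nat.lt_succ_sqrt _
  have h2 : root X ^ 2 = (Nat.sqrt (X - 1) + 1) * (Nat.sqrt (X - 1) + 1) := by
    unfold root; ring
  omega

theorem extra_le {k X : ℕ} (h0 : 0 < X) (h : k * k ≤ X) : k * extra X ≤ 2 * X := by
  have h1 := extra_spec X
  set r := Nat.sqrt (X - 1) with hr
  have h2 : r * r ≤ X - 1 := Nat.sqrt_le _
  have h3 : root X ^ 2 = r * r + 2 * r + 1 := by unfold root; ring
  have h4 : extra X ≤ 2 * r := by omega
  have h5 : k * r ≤ X := by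
    by_contra hcon
    push Not at hcon
    have h6 : X * X < (k * r) * (k * r) := Nat.mul_lt_mul'' hcon hcon
    have h7 : (k * r) * (k * r) = (k * k) * (r * r) := by ring
    have h8 : (k * k) * (r * r) ≤ X * X := Nat.mul_le_mul h (by omega)
    omega
  calc k * extra X ≤ k * (2 * r) := Nat.mul_le_mul_left _ h4
    _ = 2 * (k * r) := by ring
    _ ≤ 2 * X := by omega

/-! ### First edges -/

/-- Is it the first edge at its vertex? -/
def isFirst (k : Edge → ℕ) (I : Game) (ep : Edge × ℕ) : Bool :=
  decide (degK k (I.take ep.2) (k ep.1) = 0)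

/-- The first edges of all vertices. -/
def firsts (k : Edge → ℕ) (I : Game) : List (Edge × ℕ) := I.zipIdx.filter (isFirst k I)

theorem zipIdx_filter (I : Game) (Q : Edge × ℕ → Bool) : (I.zipIdx.filter Q).length =
    (univ.filter fun p : Fin I.length => Q (I[p], (p : ℕ)) = true).card := by
  have h1 : I.zipIdx = List.ofFn fun p : Fin I.length => (I[p], (p : ℕ)) := by
    apply List.ext_getElem
    · simp
    · intro n h1 h2
      simp
  rw [h1, ← List.countP_eq_length_filter, countP_ofFn]

theorem rank_image (k : Edge → ℕ) (I : Game) (u : ℕ) :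
    (univ.filter fun p : Fin I.length => k I[p] = u).image
      (fun p : Fin I.length => degK k (I.take p) (k I[p])) = range (degK k I u) := by
  apply eq_of_subset_of_card_le
  · intro j hj
    obtain ⟨p, hp, rfl⟩ := mem_image.1 hj
    have h1 := degK_lt k I p
    rw [(mem_filter.1 hp).2] at h1
    rw [mem_range]
    beta_reduce
    rw [(mem_filter.1 hp).2]
    exact h1
  · rw [card_range, card_image_of_injOn, ← degK_eq]
    intro p hp p' hp' h
    have h1 := (mem_filter.1 (mem_coe.1 hp)).2
    have h2 := (mem_filter.1 (mem_coe.1 hp')).2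
    exact rank_inj k I (h1.trans h2.symm) h

theorem exists_rank (k : Edge → ℕ) (I : Game) {u j : ℕ} (hj : j < degK k I u) :
    ∃ p : Fin I.length, k I[p] = u ∧ degK k (I.take p) (k I[p]) = j := by
  have h1 : j ∈ (univ.filter fun p : Fin I.length => k I[p] = u).image
      (fun p : Fin I.length => degK k (I.take p) (k I[p])) := by
    rw [rank_image, mem_range]
    exact hj
  obtain ⟨p, hp, h⟩ := mem_image.1 h1
  exact ⟨p, (mem_filter.1 hp).2, h⟩

theorem firsts_count (k : Edge → ℕ) (I : Game) (u : ℕ) :
    ((firsts k I).filter fun ep => decide (k ep.1 = u)).length =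
      if degK k I u = 0 then 0 else 1 := by
  unfold firsts
  rw [List.filter_filter, zipIdx_filter]
  have h0 : (univ.filter fun p : Fin I.length => (decide (k (I[p], (p : ℕ)).1 = u) &&
      isFirst k I (I[p], (p : ℕ))) = true) =
      univ.filter fun p : Fin I.length => k I[p] = u ∧ degK k (I.take p) (k I[p]) = 0 := by
    ext p
    simp only [mem_filter, mem_univ, true_and, Bool.and_eq_true, decide_eq_true_eq, isFirst]
  rw [h0]
  split_ifs with h
  · rw [card_eq_zero, filter_eq_empty_iff]
    rintro p _ ⟨h1, _⟩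
    have h2 := degK_lt k I p
    rw [h1] at h2
    omega
  · obtain ⟨p, h1, h2⟩ := exists_rank k I (Nat.pos_of_ne_zero h)
    rw [card_eq_one]
    refine ⟨p, ?_⟩
    ext p'
    simp only [mem_filter, mem_univ, true_and, mem_singleton]
    constructor
    · rintro ⟨h3, h4⟩
      exact rank_inj k I (h3.trans h1.symm) (h4.trans h2.symm)
    · rintro rfl
      exact ⟨h1, h2⟩

/-! ### The new game -/

/-- New names of the old vertices. -/
def dbl (e : Edge) : Edge := ((2 * e.1.1, 2 * e.1.2), e.2)

/-- The new edges at the left vertices. -/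
def padL (b : ℕ) (I : Game) : Game := (firsts kL I).flatMap fun ep =>
  (List.range (extra (b * degK kL I (kL ep.1)))).map fun i =>
    ((2 * kL ep.1, 2 * Nat.pair (kL ep.1) i + 1), ep.1.2)

/-- The new edges at the right vertices. -/
def padR (b : ℕ) (I : Game) : Game := (firsts kR I).flatMap fun ep =>
  (List.range (extra (b * degK kR I (kR ep.1)))).map fun i =>
    ((2 * Nat.pair (kR ep.1) i + 1, 2 * kR ep.1), ep.1.2)

/-- The new game. -/
def Sq (b : ℕ) (I : Game) : Game :=
  (List.range b).flatMap (fun _ => I.map dbl) ++ (padL b I ++ padR b I)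

theorem degK_append (k : Edge → ℕ) (l l' : Game) (u : ℕ) :
    degK k (l ++ l') u = degK k l u + degK k l' u := by
  unfold degK
  rw [List.filter_append, List.length_append]

theorem degK_rep (k : Edge → ℕ) (b : ℕ) (l : Game) (u : ℕ) :
    degK k ((List.range b).flatMap fun _ => l) u = b * degK k l u := by
  unfold degK
  rw [List.filter_flatMap, List.length_flatMap]
  simp

theorem degK_dbl (k : Edge → ℕ) (hk : ∀ e, k (dbl e) = 2 * k e) (I : Game) (u : ℕ) :
    degK k (I.map dbl) (2 * u) = degK k I u := by
  unfold degK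
  rw [List.filter_map, List.length_map]
  congr 1
  refine List.filter_congr fun e _ => ?_
  simp only [Function.comp, hk]
  apply decide_eq_decide.2
  omega

theorem degK_dbl_odd (k : Edge → ℕ) (hk : ∀ e, k (dbl e) = 2 * k e) (I : Game) (u : ℕ) :
    degK k (I.map dbl) (2 * u + 1) = 0 := by
  unfold degK
  rw [List.length_eq_zero_iff, List.filter_eq_nil_iff]
  intro e he
  obtain ⟨e', _, rfl⟩ := List.mem_map.1 he
  rw [decide_eq_true_eq, hk]
  omega

/-- The sum over the first edges. -/
theorem sum_firsts (k : Edge → ℕ) (I : Game) (u : ℕ) (h : ℕ → ℕ) :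
    ((firsts k I).map fun ep => if k ep.1 = u then h (k ep.1) else 0).sum =
      if degK k I u = 0 then 0 else h u := by
  have h1 : ∀ l : List (Edge × ℕ), (l.map fun ep => if k ep.1 = u then h (k ep.1) else 0).sum =
      (l.filter fun ep => decide (k ep.1 = u)).length * h u := by
    intro l
    induction l with
    | nil => simp
    | cons ep l ih =>
      rw [List.map_cons, List.sum_cons, ih, List.filter_cons]
      by_cases hu : k ep.1 = u
      · simp only [hu, if_true, decide_true, List.length_cons]
        ring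
      · simp only [hu, if_false, decide_false, Bool.false_eq_true]
        ring
  rw [h1, firsts_count]
  split_ifs <;> simp

theorem degK_flatMap {β : Type} (k : Edge → ℕ) (l : List β) (f : β → Game) (u : ℕ) :
    degK k (l.flatMap f) u = (l.map fun x => degK k (f x) u).sum := by
  unfold degK
  rw [List.filter_flatMap, List.length_flatMap]

theorem degK_padL_even (b : ℕ) (I : Game) (u : ℕ) : degK kL (padL b I) (2 * u) =
    if degK kL I u = 0 then 0 else extra (b * degK kL I u) := by
  unfold padL
  rw [degK_flatMap, ← sum_firsts kL I u fun v => extra (b * degK kL I v)]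
  congr 1
  refine List.map_congr_left fun ep _ => ?_
  unfold degK
  rw [List.filter_map, List.length_map]
  by_cases h : kL ep.1 = u
  · rw [if_pos h, List.filter_eq_self.2, List.length_range]
    intro i _
    simp only [Function.comp, decide_eq_true_eq]
    show 2 * kL ep.1 = 2 * u
    rw [h]
  · rw [if_neg h, List.length_eq_zero_iff, List.filter_eq_nil_iff]
    intro i _
    simp only [Function.comp, decide_eq_true_eq]
    show ¬ 2 * kL ep.1 = 2 * u
    omega

theorem degK_padR_even (b : ℕ) (I : Game) (u : ℕ) : degK kR (padR b I) (2 * u) =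
    if degK kR I u = 0 then 0 else extra (b * degK kR I u) := by
  unfold padR
  rw [degK_flatMap, ← sum_firsts kR I u fun v => extra (b * degK kR I v)]
  congr 1
  refine List.map_congr_left fun ep _ => ?_
  unfold degK
  rw [List.filter_map, List.length_map]
  by_cases h : kR ep.1 = u
  · rw [if_pos h, List.filter_eq_self.2, List.length_range]
    intro i _
    simp only [Function.comp, decide_eq_true_eq]
    show 2 * kR ep.1 = 2 * u
    rw [h]
  · rw [if_neg h, List.length_eq_zero_iff, List.filter_eq_nil_iff]
    intro i _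
    simp only [Function.comp, decide_eq_true_eq]
    show ¬ 2 * kR ep.1 = 2 * u
    omega

theorem degK_padL_right (b : ℕ) (I : Game) (u : ℕ) : degK kR (padL b I) (2 * u) = 0 := by
  unfold degK
  rw [List.length_eq_zero_iff, List.filter_eq_nil_iff]
  intro e he
  obtain ⟨ep, _, he⟩ := List.mem_flatMap.1 he
  obtain ⟨i, _, rfl⟩ := List.mem_map.1 he
  rw [decide_eq_true_eq]
  show ¬ 2 * Nat.pair (kL ep.1) i + 1 = 2 * u
  omega

theorem degK_padR_left (b : ℕ) (I : Game) (u : ℕ) : degK kL (padR b I) (2 * u) = 0 := by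
  unfold degK
  rw [List.length_eq_zero_iff, List.filter_eq_nil_iff]
  intro e he
  obtain ⟨ep, _, he⟩ := List.mem_flatMap.1 he
  obtain ⟨i, _, rfl⟩ := List.mem_map.1 he
  rw [decide_eq_true_eq]
  show ¬ 2 * Nat.pair (kR ep.1) i + 1 = 2 * u
  omega

theorem degK_padL_left_odd (b : ℕ) (I : Game) (u : ℕ) : degK kL (padL b I) (2 * u + 1) = 0 := by
  unfold degK
  rw [List.length_eq_zero_iff, List.filter_eq_nil_iff]
  intro e he
  obtain ⟨ep, _, he⟩ := List.mem_flatMap.1 he
  obtain ⟨i, _, rfl⟩ := List.mem_map.1 he
  rw [decide_eq_true_eq]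
  show ¬ 2 * kL ep.1 = 2 * u + 1
  omega

theorem degK_padR_right_odd (b : ℕ) (I : Game) (u : ℕ) : degK kR (padR b I) (2 * u + 1) = 0 := by
  unfold degK
  rw [List.length_eq_zero_iff, List.filter_eq_nil_iff]
  intro e he
  obtain ⟨ep, _, he⟩ := List.mem_flatMap.1 he
  obtain ⟨i, _, rfl⟩ := List.mem_map.1 he
  rw [decide_eq_true_eq]
  show ¬ 2 * kR ep.1 = 2 * u + 1
  omega

theorem count_range_map (n c : ℕ) (f : ℕ → ℕ) (hf : ∀ i j, f i = f j → i = j) :
    ((List.range n).filter fun i => decide (f i = c)).length ≤ 1 := by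
  rw [← List.countP_eq_length_filter]
  by_contra hcon
  push Not at hcon
  have h1 : ((List.range n).filter fun i => decide (f i = c)).Nodup := List.nodup_range.filter _
  rw [List.countP_eq_length_filter] at hcon
  have h2 := (List.nodup_iff_injective_get.1 h1)
  set l := (List.range n).filter fun i => decide (f i = c) with hl
  have h3 : ∀ i : Fin l.length, f (l.get i) = c := by
    intro i
    have h5 : l.get i ∈ (List.range n).filter fun i => decide (f i = c) := List.get_mem l i
    exact of_decide_eq_true (List.mem_filter.1 h5).2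
  have h4 := h2 (hf _ _ ((h3 ⟨0, by omega⟩).trans (h3 ⟨1, by omega⟩).symm))
  simp at h4

theorem degK_padL_right_odd (b : ℕ) (I : Game) (c : ℕ) : degK kR (padL b I) (2 * c + 1) ≤ 1 := by
  unfold padL
  rw [degK_flatMap]
  set u := (Nat.unpair c).1 with hu
  have h1 : ((firsts kL I).map fun ep => degK kR ((List.range
      (extra (b * degK kL I (kL ep.1)))).map fun i =>
        (((2 * kL ep.1, 2 * Nat.pair (kL ep.1) i + 1), ep.1.2) : Edge)) (2 * c + 1)).sum ≤
      ((firsts kL I).map fun ep => if kL ep.1 = u then (fun _ => 1) (kL ep.1) else 0).sum := by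
    refine List.sum_le_sum fun ep _ => ?_
    unfold degK
    rw [List.filter_map, List.length_map]
    by_cases h : kL ep.1 = u
    · rw [if_pos h]
      refine le_trans (le_of_eq ?_) (count_range_map (extra (b * (I.filter fun e =>
        decide (kL e = kL ep.1)).length)) (2 * c + 1) (fun i => 2 * Nat.pair (kL ep.1) i + 1) ?_)
      · rfl
      · intro i j hij
        have : Nat.pair (kL ep.1) i = Nat.pair (kL ep.1) j := by omega
        exact (Nat.pair_eq_pair.1 this).2
    · rw [if_neg h, Nat.le_zero, List.length_eq_zero_iff, List.filter_eq_nil_iff]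
      intro i _
      simp only [Function.comp, decide_eq_true_eq]
      intro h2
      have h3 : Nat.pair (kL ep.1) i = c := by
        have : 2 * Nat.pair (kL ep.1) i + 1 = 2 * c + 1 := h2
        omega
      apply h
      rw [hu, ← h3, Nat.unpair_pair]
  refine h1.trans ?_
  rw [sum_firsts kL I u fun _ => 1]
  split_ifs <;> omega

theorem degK_padR_left_odd (b : ℕ) (I : Game) (c : ℕ) : degK kL (padR b I) (2 * c + 1) ≤ 1 := by
  unfold padR
  rw [degK_flatMap]
  set u := (Nat.unpair c).1 with hu
  have h1 : ((firsts kR I).map fun ep => degK kL ((List.range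
      (extra (b * degK kR I (kR ep.1)))).map fun i =>
        (((2 * Nat.pair (kR ep.1) i + 1, 2 * kR ep.1), ep.1.2) : Edge)) (2 * c + 1)).sum ≤
      ((firsts kR I).map fun ep => if kR ep.1 = u then (fun _ => 1) (kR ep.1) else 0).sum := by
    refine List.sum_le_sum fun ep _ => ?_
    unfold degK
    rw [List.filter_map, List.length_map]
    by_cases h : kR ep.1 = u
    · rw [if_pos h]
      refine le_trans (le_of_eq ?_) (count_range_map (extra (b * (I.filter fun e =>
        decide (kR e = kR ep.1)).length)) (2 * c + 1) (fun i => 2 * Nat.pair (kR ep.1) i + 1) ?_)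
      · rfl
      · intro i j hij
        have : Nat.pair (kR ep.1) i = Nat.pair (kR ep.1) j := by omega
        exact (Nat.pair_eq_pair.1 this).2
    · rw [if_neg h, Nat.le_zero, List.length_eq_zero_iff, List.filter_eq_nil_iff]
      intro i _
      simp only [Function.comp, decide_eq_true_eq]
      intro h2
      have h3 : Nat.pair (kR ep.1) i = c := by
        have : 2 * Nat.pair (kR ep.1) i + 1 = 2 * c + 1 := h2
        omega
      apply h
      rw [hu, ← h3, Nat.unpair_pair]
  refine h1.trans ?_
  rw [sum_firsts kR I u fun _ => 1]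
  split_ifs <;> omega

theorem dbl_kL (e : Edge) : kL (dbl e) = 2 * kL e := rfl

theorem dbl_kR (e : Edge) : kR (dbl e) = 2 * kR e := rfl

/-- The side of the cloud of a vertex. -/
def sd (k : Edge → ℕ) (I : Game) (u : ℕ) : ℕ := root (degK k I u)

instance (k : Edge → ℕ) (I : Game) (u : ℕ) : NeZero (sd k I u) := ⟨Nat.succ_ne_zero _⟩

/-- All degrees are squares. -/
def SqDeg (k : Edge → ℕ) (I : Game) : Prop := ∀ u, degK k I u ≠ 0 → sd k I u ^ 2 = degK k I u

theorem root_sq (r : ℕ) : root ((r + 1) ^ 2) = r + 1 := by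
  unfold root
  have h1 : (r + 1) ^ 2 - 1 = r * r + 2 * r := by
    have : (r + 1) ^ 2 = r * r + 2 * r + 1 := by ring
    omega
  rw [h1]
  congr 1
  exact (Nat.eq_sqrt.2 ⟨by nlinarith, by nlinarith⟩).symm

theorem root_of_sq {X : ℕ} (h : ∃ r, X = (r + 1) ^ 2) : root X ^ 2 = X := by
  obtain ⟨r, rfl⟩ := h
  rw [root_sq]

theorem sqDeg_L (b : ℕ) (I : Game) : SqDeg kL (Sq b I) := by
  intro a ha
  unfold sd
  apply root_of_sq
  unfold Sq at ha ⊢
  rw [degK_append, degK_append, degK_rep] at ha ⊢
  obtain ⟨u, rfl | rfl⟩ := Nat.even_or_odd' a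
  · rw [degK_dbl kL dbl_kL, degK_padL_even, degK_padR_left] at ha ⊢
    split_ifs at ha ⊢ with h
    · rw [h] at ha
      simp at ha
    · rw [add_zero, extra_spec]
      exact ⟨_, rfl⟩
  · rw [degK_dbl_odd kL dbl_kL, degK_padL_left_odd] at ha ⊢
    have h1 := degK_padR_left_odd b I u
    refine ⟨0, ?_⟩
    omega

theorem sqDeg_R (b : ℕ) (I : Game) : SqDeg kR (Sq b I) := by
  intro a ha
  unfold sd
  apply root_of_sq
  unfold Sq at ha ⊢
  rw [degK_append, degK_append, degK_rep] at ha ⊢
  obtain ⟨u, rfl | rfl⟩ := Nat.even_or_odd' a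
  · rw [degK_dbl kR dbl_kR, degK_padR_even, degK_padL_right] at ha ⊢
    split_ifs at ha ⊢ with h
    · rw [h] at ha
      simp at ha
    · rw [zero_add, extra_spec]
      exact ⟨_, rfl⟩
  · rw [degK_dbl_odd kR dbl_kR, degK_padR_right_odd] at ha ⊢
    have h1 := degK_padL_right_odd b I u
    refine ⟨0, ?_⟩
    omega

end Pool.Agent.H697.LF
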